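import Mathlib
import Pool.Agent.RA6.Defs99

/-!
Basic matrices and relational bases (Maddux; Hirsch and Hodkinson) for A_6([i,i,i+2]).
-/

namespace Pool.Agent.H59R

open Pool.Agent.RA6

/-- An `n`-dimensional basic matrix: an `n` by `n` matrix of atoms with identity atoms on the
diagonal, symmetric (all atoms are symmetric), with `M i j ≤ M i k ; M k j`. -/
structure IsBasic {n : ℕ} (M : Fin n → Fin n → Atom) : Prop where
  diag : ∀ i, M i i = none
  symm : ∀ i j, M i j = M j i
  tri : ∀ i j k, M i j ∈ atomComp (M i k) (M k j)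

/-- An `n`-dimensional relational basis: a set of basic matrices in which all atoms occur and
which has the extension property: if `M i j ≤ a ; b` and `k` is different from `i` and `j`,
then some `M'` in the set agrees with `M` away from `k` and has `M' i k = a`, `M' k j = b`. -/
structure IsRelationalBasis (n : ℕ) (B : Set (Fin n → Fin n → Atom)) : Prop where
  basic : ∀ M ∈ B, IsBasic M
  atoms : ∀ a : Atom, ∀ i j : Fin n, i ≠ j → ∃ M ∈ B, M i j = a
  ext : ∀ M ∈ B, ∀ i j k : Fin n, k ≠ i → k ≠ j → ∀ a b : Atom, M i j ∈ atomComp a b →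
    ∃ M' ∈ B, M' i k = a ∧ M' k j = b ∧ ∀ p q, p ≠ k → q ≠ k → M' p q = M p q

end Pool.Agent.H59R
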