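import Mathlib
import Pool.Agent.RA6.Defs99

/-!
Rows for A_6([i,i,i+2]): parity and value in `ZMod 3` of a colour, and the small
solvable systems used for the extension property.
-/

namespace Pool.Agent.H59R

open Pool.Agent.RA6

/-- Parity of a colour. -/
def par (c : ZMod 6) : ZMod 2 := (ZMod.castHom (show 2 ∣ 6 by norm_num) (ZMod 2)) c

/-- Value of a colour modulo `3`. -/
def vl (c : ZMod 6) : ZMod 3 := (ZMod.castHom (show 3 ∣ 6 by norm_num) (ZMod 3)) c

/-- The colour with given parity and value. -/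
def mk (p : ZMod 2) (v : ZMod 3) : ZMod 6 := 3 * (p.val : ZMod 6) + 4 * (v.val : ZMod 6)

theorem par_mk : ∀ p v, par (mk p v) = p := by decide

theorem vl_mk : ∀ p v, vl (mk p v) = v := by decide

theorem mk_eta : ∀ c, mk (par c) (vl c) = c := by decide

theorem forb_iff' : ∀ s t u : ZMod 6, Forbidden s t u ↔
    (par s = par t ∧ par t = par u ∧ vl s + vl t + vl u = 2) := by decide

/-- Triangle with two valued domains. -/
theorem tri_two : ∀ p q r : ZMod 3, ∃ a b c : ZMod 3, a ≠ 0 ∧ b ≠ 0 ∧ c ≠ 0 ∧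
    a + b ≠ p ∧ a + c ≠ q ∧ b + c ≠ r := by decide

theorem third_val : ∀ p q : ZMod 3, ∃ a : ZMod 3, a ≠ p ∧ a ≠ q := by decide

/-- The conditions at the last two points of the complete graph on five points. -/
def LastTwo (p q r s t a b c : ZMod 3) : Prop :=
  ∃ d : ZMod 3, (a + d ≠ 0 ∧ b + d ≠ p ∧ c + d ≠ q) ∧
    ∃ e : ZMod 3, a + e ≠ 0 ∧ b + e ≠ r ∧ c + e ≠ s ∧ d + e ≠ t

instance (p q r s t a b c : ZMod 3) : Decidable (LastTwo p q r s t a b c) := by
  unfold LastTwo; infer_instance

/-- The first three points. -/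
def FirstThree (p q r s t : ZMod 3) : Prop :=
  ∃ a b c : ZMod 3, (a + b ≠ 0 ∧ a + c ≠ 0 ∧ b + c ≠ 0) ∧ LastTwo p q r s t a b c

instance (p q r s t : ZMod 3) : Decidable (FirstThree p q r s t) := by
  unfold FirstThree; infer_instance

/-- The complete graph on five points, normalised. -/
theorem five_norm : ∀ p q r s t : ZMod 3, FirstThree p q r s t := by decide

end Pool.Agent.H59R
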