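import Mathlib
import Pool.Agent.H59R.Row59

/-!
Systems of conditions on a finite set of points.
-/

namespace Pool.Agent.H59R

open Pool.Agent.RA6 Finset

set_option linter.unusedSectionVars false

variable {V : Type} [DecidableEq V]

/-- The points of `A` get values which avoid `Ex` and the conditions of the pairs of
parity `β`. -/
def Row (c : V → V → ZMod 6) (β : ZMod 2) (Ex : V → Finset (ZMod 3)) (A : Finset V) : Prop :=
  ∃ v : V → ZMod 3, (∀ f ∈ A, v f ∉ Ex f) ∧
    ∀ f ∈ A, ∀ g ∈ A, f ≠ g → par (c f g) = β → v f + v g + vl (c f g) ≠ 2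

theorem row_congr {c : V → V → ZMod 6} {β : ZMod 2} {Ex : V → Finset (ZMod 3)}
    {A B : Finset V} (h : Row c β Ex A) (hAB : B ⊆ A) : Row c β Ex B := by
  obtain ⟨v, h1, h2⟩ := h
  exact ⟨v, fun f hf => h1 f (hAB hf), fun f hf g hg => h2 f (hAB hf) g (hAB hg)⟩

theorem exists_notMem_of_card {S : Finset (ZMod 3)} (h : S.card ≤ 2) : ∃ a, a ∉ S := by
  by_contra hcon
  push Not at hcon
  have : S = univ := Finset.eq_univ_of_forall hcon
  rw [this] at h
  have h3 : (univ : Finset (ZMod 3)).card = 3 := rfl
  omega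

theorem row_greedy {c : V → V → ZMod 6} (hc : ∀ x y, c x y = c y x) {β : ZMod 2}
    {Ex : V → Finset (ZMod 3)} {A : Finset V} (h : Row c β Ex A) (u : V) (hu : u ∉ A)
    (hd : (A.filter (fun f => par (c f u) = β)).card + (Ex u).card ≤ 2) :
    Row c β Ex (insert u A) := by
  obtain ⟨v, h1, h2⟩ := h
  set S : Finset (ZMod 3) :=
    (A.filter (fun f => par (c f u) = β)).image (fun f => 2 - v f - vl (c f u)) ∪ Ex u with hS
  have hcard : S.card ≤ 2 :=
    ((Finset.card_union_le _ _).trans (Nat.add_le_add_right Finset.card_image_le _)).trans hd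
  obtain ⟨a, ha⟩ := exists_notMem_of_card hcard
  have hne : ∀ f ∈ A, f ≠ u := fun f hf hh => hu (hh ▸ hf)
  have haS : ∀ f ∈ A, par (c f u) = β → v f + a + vl (c f u) ≠ 2 := by
    intro f hf hp heq
    apply ha
    rw [hS]
    refine Finset.mem_union_left _ (Finset.mem_image.mpr ⟨f, ?_, ?_⟩)
    · exact Finset.mem_filter.mpr ⟨hf, hp⟩
    · rw [← heq]; ring
  refine ⟨Function.update v u a, ?_, ?_⟩
  · intro f hf
    rcases Finset.mem_insert.mp hf with rfl | hf
    · rw [Function.update_self]
      intro hh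
      exact ha (Finset.mem_union_right _ hh)
    · rw [Function.update_of_ne (hne f hf)]
      exact h1 f hf
  · intro f hf g hg hfg hp
    rcases Finset.mem_insert.mp hf with hf1 | hf1
    · rcases Finset.mem_insert.mp hg with hg1 | hg1
      · exact absurd (hf1.trans hg1.symm) hfg
      · subst hf1
        rw [Function.update_self, Function.update_of_ne (hne g hg1), hc f g, add_comm a]
        exact haS g hg1 (by rw [hc g f]; exact hp)
    · rcases Finset.mem_insert.mp hg with hg1 | hg1
      · subst hg1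
        rw [Function.update_self, Function.update_of_ne (hne f hf1)]
        exact haS f hf1 hp
      · rw [Function.update_of_ne (hne f hf1), Function.update_of_ne (hne g hg1)]
        exact h2 f hf1 g hg1 hfg hp

/-- No condition between the points. -/
theorem row_free {c : V → V → ZMod 6} {β : ZMod 2}
    {Ex : V → Finset (ZMod 3)} {A : Finset V} (hE : ∀ f ∈ A, (Ex f).card ≤ 2)
    (h : ∀ f ∈ A, ∀ g ∈ A, f ≠ g → par (c f g) ≠ β) : Row c β Ex A := by
  classical
  have : ∀ f, ∃ a, f ∈ A → a ∉ Ex f := by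
    intro f
    by_cases hf : f ∈ A
    · obtain ⟨a, ha⟩ := exists_notMem_of_card (hE f hf)
      exact ⟨a, fun _ => ha⟩
    · exact ⟨0, fun hh => absurd hh hf⟩
  choose v hv using this
  exact ⟨v, hv, fun f hf g hg hfg hp => absurd hp (h f hf g hg hfg)⟩

/-- Three points with one excluded value each. -/
theorem row_three {c : V → V → ZMod 6} (hc : ∀ x y, c x y = c y x) {β : ZMod 2}
    {Ex : V → Finset (ZMod 3)} (hE : ∀ f, (Ex f).card ≤ 1)
    {x y z : V} (hxy : x ≠ y) (hxz : x ≠ z) (hyz : y ≠ z) : Row c β Ex {x, y, z} := by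
  classical
  have hex : ∀ f, ∃ e : ZMod 3, ∀ a, a ∈ Ex f → a = e := by
    intro f
    rcases Finset.card_le_one_iff_subset_singleton.mp (hE f) with ⟨e, he⟩
    exact ⟨e, fun a ha => Finset.mem_singleton.mp (he ha)⟩
  choose e he using hex
  obtain ⟨a, b, d, ha, hb, hd, h1, h2, h3⟩ := tri_two (2 - vl (c x y) - e x - e y)
    (2 - vl (c x z) - e x - e z) (2 - vl (c y z) - e y - e z)
  set v : V → ZMod 3 := fun f => if f = x then e x + a else if f = y then e y + b else e z + d
    with hv
  have vx : v x = e x + a := by rw [hv]; simp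
  have vy : v y = e y + b := by rw [hv]; simp [Ne.symm hxy]
  have vz : v z = e z + d := by rw [hv]; simp [Ne.symm hxz, Ne.symm hyz]
  have k1 : v x + v y + vl (c x y) ≠ 2 := by
    rw [vx, vy]; intro hh; apply h1; rw [← hh]; ring
  have k2 : v x + v z + vl (c x z) ≠ 2 := by
    rw [vx, vz]; intro hh; apply h2; rw [← hh]; ring
  have k3 : v y + v z + vl (c y z) ≠ 2 := by
    rw [vy, vz]; intro hh; apply h3; rw [← hh]; ring
  have n1 : v x ∉ Ex x := by
    intro hh; have := he x _ hh; rw [vx] at this; exact ha (by simpa using this)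
  have n2 : v y ∉ Ex y := by
    intro hh; have := he y _ hh; rw [vy] at this; exact hb (by simpa using this)
  have n3 : v z ∉ Ex z := by
    intro hh; have := he z _ hh; rw [vz] at this; exact hd (by simpa using this)
  refine ⟨v, ?_, ?_⟩
  · intro f hf
    simp only [Finset.mem_insert, Finset.mem_singleton] at hf
    rcases hf with rfl | rfl | rfl
    · exact n1
    · exact n2
    · exact n3
  · intro f hf g hg hfg _
    simp only [Finset.mem_insert, Finset.mem_singleton] at hf hg
    rcases hf with rfl | rfl | rfl <;> rcases hg with rfl | rfl | rfl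
    · exact absurd rfl hfg
    · exact k1
    · exact k2
    · rw [hc, add_comm (v f)]; exact k1
    · exact absurd rfl hfg
    · exact k3
    · rw [hc, add_comm (v f)]; exact k2
    · rw [hc, add_comm (v f)]; exact k3
    · exact absurd rfl hfg

theorem cyc_two : ∀ p q r s : ZMod 3, ∃ a b c d : ZMod 3, (a ≠ 0 ∧ b ≠ 0 ∧ c ≠ 0 ∧ d ≠ 0) ∧
    a + c ≠ p ∧ a + d ≠ q ∧ b + c ≠ r ∧ b + d ≠ s := by decide

/-- Four points with two disjoint pairs without condition. -/
theorem row_cyc {c : V → V → ZMod 6} (hc : ∀ x y, c x y = c y x) {β : ZMod 2}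
    {Ex : V → Finset (ZMod 3)} (hE : ∀ f, (Ex f).card ≤ 1)
    {x y z w : V} (hxy : x ≠ y) (hxz : x ≠ z) (hxw : x ≠ w) (hyz : y ≠ z) (hyw : y ≠ w)
    (hzw : z ≠ w) (p1 : par (c x y) ≠ β) (p2 : par (c z w) ≠ β) :
    Row c β Ex {x, y, z, w} := by
  classical
  have hex : ∀ f, ∃ e : ZMod 3, ∀ a, a ∈ Ex f → a = e := by
    intro f
    rcases Finset.card_le_one_iff_subset_singleton.mp (hE f) with ⟨e, he⟩
    exact ⟨e, fun a ha => Finset.mem_singleton.mp (he ha)⟩
  choose e he using hex
  obtain ⟨a, b, d, g0, ⟨ha, hb, hd, hg⟩, h1, h2, h3, h4⟩ :=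
    cyc_two (2 - vl (c x z) - e x - e z)
    (2 - vl (c x w) - e x - e w) (2 - vl (c y z) - e y - e z) (2 - vl (c y w) - e y - e w)
  set v : V → ZMod 3 := fun f => if f = x then e x + a else if f = y then e y + b
    else if f = z then e z + d else e w + g0 with hv
  have vx : v x = e x + a := by rw [hv]; simp
  have vy : v y = e y + b := by rw [hv]; simp [Ne.symm hxy]
  have vz : v z = e z + d := by rw [hv]; simp [Ne.symm hxz, Ne.symm hyz]
  have vw : v w = e w + g0 := by rw [hv]; simp [Ne.symm hxw, Ne.symm hyw, Ne.symm hzw]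
  have k1 : v x + v z + vl (c x z) ≠ 2 := by
    rw [vx, vz]; intro hh; apply h1; rw [← hh]; ring
  have k2 : v x + v w + vl (c x w) ≠ 2 := by
    rw [vx, vw]; intro hh; apply h2; rw [← hh]; ring
  have k3 : v y + v z + vl (c y z) ≠ 2 := by
    rw [vy, vz]; intro hh; apply h3; rw [← hh]; ring
  have k4 : v y + v w + vl (c y w) ≠ 2 := by
    rw [vy, vw]; intro hh; apply h4; rw [← hh]; ring
  have n1 : v x ∉ Ex x := by
    intro hh; have := he x _ hh; rw [vx] at this; exact ha (by simpa using this)
  have n2 : v y ∉ Ex y := by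
    intro hh; have := he y _ hh; rw [vy] at this; exact hb (by simpa using this)
  have n3 : v z ∉ Ex z := by
    intro hh; have := he z _ hh; rw [vz] at this; exact hd (by simpa using this)
  have n4 : v w ∉ Ex w := by
    intro hh; have := he w _ hh; rw [vw] at this; exact hg (by simpa using this)
  refine ⟨v, ?_, ?_⟩
  · intro f hf
    simp only [Finset.mem_insert, Finset.mem_singleton] at hf
    rcases hf with rfl | rfl | rfl | rfl
    · exact n1
    · exact n2
    · exact n3
    · exact n4
  · intro f hf g hg hfg hp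
    simp only [Finset.mem_insert, Finset.mem_singleton] at hf hg
    rcases hf with rfl | rfl | rfl | rfl <;> rcases hg with rfl | rfl | rfl | rfl
    · exact absurd rfl hfg
    · exact absurd hp p1
    · exact k1
    · exact k2
    · rw [hc] at hp; exact absurd hp p1
    · exact absurd rfl hfg
    · exact k3
    · exact k4
    · rw [hc, add_comm (v f)]; exact k1
    · rw [hc, add_comm (v f)]; exact k3
    · exact absurd rfl hfg
    · exact absurd hp p2
    · rw [hc, add_comm (v f)]; exact k2
    · rw [hc, add_comm (v f)]; exact k4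
    · rw [hc] at hp; exact absurd hp p2
    · exact absurd rfl hfg

end Pool.Agent.H59R
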