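import Mathlib
import Pool.Agent.H59R.RowA59

/-!
Splitting eight points: the mixed requests.
-/

namespace Pool.Agent.H59R

open Pool.Agent.RA6 Finset

set_option linter.unusedSectionVars false

variable {V : Type} [DecidableEq V]

theorem zmod2_ne {a b : ZMod 2} (h : a ≠ b) : a = b + 1 := by
  revert a b; decide

theorem zmod2_add_ne : ∀ b : ZMod 2, b + 1 ≠ b := by decide

theorem zmod2_cases (b β : ZMod 2) : b = β ∨ b = β + 1 := by
  revert b β; decide

/-- Three points out of a set of at least three. -/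
theorem three_of_card {S : Finset V} (h : 3 ≤ S.card) :
    ∃ x ∈ S, ∃ y ∈ S, ∃ z ∈ S, x ≠ y ∧ x ≠ z ∧ y ≠ z := by
  obtain ⟨T, hT, hc⟩ := Finset.exists_subset_card_eq h
  obtain ⟨x, y, z, h1, h2, h3, rfl⟩ := Finset.card_eq_three.mp hc
  exact ⟨x, hT (by simp), y, hT (by simp), z, hT (by simp), h1, h2, h3⟩

/-- Among six points there is a triangle of one parity. -/
theorem ramsey {c : V → V → ZMod 6} (hc : ∀ x y, c x y = c y x) {F : Finset V}
    (hF : 6 ≤ F.card) : ∃ ρ : ZMod 2, ∃ x ∈ F, ∃ y ∈ F, ∃ z ∈ F, (x ≠ y ∧ x ≠ z ∧ y ≠ z) ∧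
      par (c x y) = ρ ∧ par (c x z) = ρ ∧ par (c y z) = ρ := by
  obtain ⟨u, hu⟩ : F.Nonempty := Finset.card_pos.mp (by omega)
  have hsum : ((F.erase u).filter (fun f => par (c u f) = 0)).card
      + ((F.erase u).filter (fun f => ¬ par (c u f) = 0)).card = (F.erase u).card :=
    Finset.card_filter_add_card_filter_not _
  rw [Finset.card_erase_of_mem hu] at hsum
  have key : ∀ ρ : ZMod 2, ∀ S : Finset V, 3 ≤ S.card → S ⊆ F.erase u →
      (∀ f ∈ S, par (c u f) = ρ) →
      ∃ ρ : ZMod 2, ∃ x ∈ F, ∃ y ∈ F, ∃ z ∈ F, (x ≠ y ∧ x ≠ z ∧ y ≠ z) ∧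
      par (c x y) = ρ ∧ par (c x z) = ρ ∧ par (c y z) = ρ := by
    intro ρ S hS hSF hp
    obtain ⟨x, hx, y, hy, z, hz, h1, h2, h3⟩ := three_of_card hS
    have fx := Finset.mem_erase.mp (hSF hx)
    have fy := Finset.mem_erase.mp (hSF hy)
    have fz := Finset.mem_erase.mp (hSF hz)
    by_cases e1 : par (c x y) = ρ
    · exact ⟨ρ, u, hu, x, fx.2, y, fy.2, ⟨Ne.symm fx.1, Ne.symm fy.1, h1⟩,
        hp x hx, hp y hy, e1⟩
    by_cases e2 : par (c x z) = ρ
    · exact ⟨ρ, u, hu, x, fx.2, z, fz.2, ⟨Ne.symm fx.1, Ne.symm fz.1, h2⟩,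
        hp x hx, hp z hz, e2⟩
    by_cases e3 : par (c y z) = ρ
    · exact ⟨ρ, u, hu, y, fy.2, z, fz.2, ⟨Ne.symm fy.1, Ne.symm fz.1, h3⟩,
        hp y hy, hp z hz, e3⟩
    exact ⟨ρ + 1, x, fx.2, y, fy.2, z, fz.2, ⟨h1, h2, h3⟩, zmod2_ne e1, zmod2_ne e2,
      zmod2_ne e3⟩
  by_cases h0 : 3 ≤ ((F.erase u).filter (fun f => par (c u f) = 0)).card
  · exact key 0 _ h0 (Finset.filter_subset _ _) (fun f hf => (Finset.mem_filter.mp hf).2)
  · refine key 1 ((F.erase u).filter (fun f => ¬ par (c u f) = 0)) (by omega)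
      (Finset.filter_subset _ _) (fun f hf => ?_)
    have := zmod2_ne (Finset.mem_filter.mp hf).2
    simpa using this

/-- At most three points. -/
theorem row_le_three {c : V → V → ZMod 6} (hc : ∀ x y, c x y = c y x) {β : ZMod 2}
    {Ex : V → Finset (ZMod 3)} (hE : ∀ f, (Ex f).card ≤ 1)
    {A : Finset V} (hA : A.card ≤ 3) : Row c β Ex A := by
  have h4 : A.card = 0 ∨ A.card = 1 ∨ A.card = 2 ∨ A.card = 3 := by omega
  rcases h4 with h | h | h | h
  · rw [Finset.card_eq_zero] at h
    subst h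
    exact ⟨fun _ => 0, by simp, by simp⟩
  · obtain ⟨x, rfl⟩ := Finset.card_eq_one.mp h
    refine row_free (fun f _ => (hE f).trans (by norm_num)) ?_
    intro f hf g hg hfg
    simp only [Finset.mem_singleton] at hf hg
    exact absurd (hf.trans hg.symm) hfg
  · obtain ⟨x, y, hxy, rfl⟩ := Finset.card_eq_two.mp h
    have h1 : Row c β Ex {y} := by
      refine row_free (fun f _ => (hE f).trans (by norm_num)) ?_
      intro f hf g hg hfg
      simp only [Finset.mem_singleton] at hf hg
      exact absurd (hf.trans hg.symm) hfg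
    refine row_greedy hc h1 x (by simpa using hxy) ?_
    have := Finset.card_filter_le ({y} : Finset V) (fun f => par (c f x) = β)
    have h2 := hE x
    rw [Finset.card_singleton] at this
    omega
  · obtain ⟨x, y, z, h1, h2, h3, rfl⟩ := Finset.card_eq_three.mp h
    exact row_three hc hE h1 h2 h3

/-- Four points, two of the pairs without condition. -/
theorem row_four {c : V → V → ZMod 6} (hc : ∀ x y, c x y = c y x) {β : ZMod 2}
    {Ex : V → Finset (ZMod 3)} (hE : ∀ f, (Ex f).card ≤ 1)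
    {A : Finset V} (hA : A.card = 4) {p q r s : V} (hp : p ∈ A) (hq : q ∈ A) (hr : r ∈ A)
    (hs : s ∈ A) (hpq : p ≠ q) (hrs : r ≠ s) (hne : ({p, q} : Finset V) ≠ {r, s})
    (h1 : par (c p q) ≠ β) (h2 : par (c r s) ≠ β) : Row c β Ex A := by
  -- a common point
  have common : ∀ p q s : V, p ∈ A → q ∈ A → s ∈ A → p ≠ q → p ≠ s → q ≠ s →
      par (c p q) ≠ β → par (c p s) ≠ β → Row c β Ex A := by
    intro p q s hp hq hs hpq hps hqs h1 h2
    have hrow : Row c β Ex (A.erase p) := by
      apply row_le_three hc hE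
      rw [Finset.card_erase_of_mem hp]; omega
    have : Row c β Ex (insert p (A.erase p)) := by
      refine row_greedy hc hrow p (Finset.notMem_erase p A) ?_
      have hsub : (A.erase p).filter (fun f => par (c f p) = β) ⊆ ((A.erase p).erase q).erase s := by
        intro f hf
        have hf' := Finset.mem_filter.mp hf
        refine Finset.mem_erase.mpr ⟨?_, Finset.mem_erase.mpr ⟨?_, hf'.1⟩⟩
        · rintro rfl; exact h2 (by rw [hc]; exact hf'.2)
        · rintro rfl; exact h1 (by rw [hc]; exact hf'.2)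
      have hcard := Finset.card_le_card hsub
      rw [Finset.card_erase_of_mem, Finset.card_erase_of_mem, Finset.card_erase_of_mem hp, hA]
        at hcard
      · have := hE p; omega
      · exact Finset.mem_erase.mpr ⟨Ne.symm hpq, hq⟩
      · exact Finset.mem_erase.mpr ⟨Ne.symm hqs, Finset.mem_erase.mpr ⟨Ne.symm hps, hs⟩⟩
    rw [Finset.insert_erase hp] at this
    exact this
  by_cases e1 : p = r
  · subst e1
    exact common p q s hp hq hs hpq hrs (fun hh => hne (by rw [hh])) h1 h2
  by_cases e2 : p = s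
  · subst e2
    refine common p q r hp hq hr hpq (Ne.symm hrs) (fun hh => hne ?_) h1 (by rw [hc]; exact h2)
    rw [hh, Finset.pair_comm]
  by_cases e3 : q = r
  · subst e3
    refine common q p s hq hp hs (Ne.symm hpq) hrs (fun hh => hne ?_) (by rw [hc]; exact h1) h2
    rw [hh, Finset.pair_comm]
  by_cases e4 : q = s
  · subst e4
    exact common q p r hq hp hr (Ne.symm hpq) (Ne.symm hrs)
      (fun hh => hne (by rw [hh])) (by rw [hc]; exact h1) (by rw [hc]; exact h2)
  have hrow := row_cyc hc hE hpq e1 e2 e3 e4 hrs h1 h2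
  have hcard : ({p, q, r, s} : Finset V).card = 4 := by
    rw [Finset.card_insert_of_notMem, Finset.card_insert_of_notMem, Finset.card_pair hrs]
    · simp [e3, e4]
    · simp [hpq, e1, e2]
  have hsub : ({p, q, r, s} : Finset V) ⊆ A := by
    intro f hf
    simp only [Finset.mem_insert, Finset.mem_singleton] at hf
    rcases hf with rfl | rfl | rfl | rfl <;> assumption
  rw [← Finset.eq_of_subset_of_card_le hsub (by rw [hA, hcard])]
  exact hrow

end Pool.Agent.H59R
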