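import Mathlib
import Pool.Agent.H59R.RowB59

/-!
Splitting eight points into the points with values of one and of the other parity.
-/

namespace Pool.Agent.H59R

open Pool.Agent.RA6 Finset

set_option linter.unusedSectionVars false

variable {V : Type} [DecidableEq V]

theorem row_many {c : V → V → ZMod 6} (hc : ∀ x y, c x y = c y x) {β : ZMod 2}
    {Ex : V → Finset (ZMod 3)} {P : Finset V} (h : Row c β Ex P) (S : Finset V)
    (hd : ∀ u ∈ S, u ∉ P ∧
      ((P ∪ S).filter (fun f => f ≠ u ∧ par (c f u) = β)).card + (Ex u).card ≤ 2) :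
    Row c β Ex (P ∪ S) := by
  have key : ∀ S' : Finset V, S' ⊆ S → Row c β Ex (P ∪ S') := by
    intro S'
    induction S' using Finset.induction_on with
    | empty => intro _; simpa using h
    | insert u S' hu ih =>
      intro hS
      have hrow := ih (fun f hf => hS (Finset.mem_insert_of_mem hf))
      obtain ⟨huP, hcard⟩ := hd u (hS (Finset.mem_insert_self u S'))
      have := row_greedy hc hrow u (by
        intro hh
        rcases Finset.mem_union.mp hh with h1 | h1
        · exact huP h1
        · exact hu h1) (by
        refine le_trans (Nat.add_le_add_right (Finset.card_le_card ?_) _) hcard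
        intro f hf
        obtain ⟨h1, h2⟩ := Finset.mem_filter.mp hf
        refine Finset.mem_filter.mpr ⟨?_, ?_, h2⟩
        · rcases Finset.mem_union.mp h1 with h3 | h3
          · exact Finset.mem_union_left _ h3
          · exact Finset.mem_union_right _ (hS (Finset.mem_insert_of_mem h3))
        · rintro rfl
          rcases Finset.mem_union.mp h1 with h3 | h3
          · exact huP h3
          · exact hu h3)
      refine row_congr this ?_
      intro f hf
      simp only [Finset.mem_union, Finset.mem_insert] at hf ⊢
      tauto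
  exact key S (fun _ h => h)

/-- The split for a mixed request. -/
theorem mixed_split {c : V → V → ZMod 6} (hc : ∀ x y, c x y = c y x) {F : Finset V}
    (hF : F.card = 8) {Ex : ZMod 2 → V → Finset (ZMod 3)} (hE : ∀ b f, (Ex b f).card ≤ 1) :
    ∃ β, ∃ A ⊆ F, Row c β (Ex β) A ∧ Row c (β + 1) (Ex (β + 1)) (F \ A) := by
  obtain ⟨ρ, x, hx, y, hy, z, hz, ⟨hxy, hxz, hyz⟩, e1, e2, e3⟩ := ramsey hc (F := F) (by omega)
  have hT : ({x, y, z} : Finset V).card = 3 := Finset.card_eq_three.mpr ⟨x, y, z, hxy, hxz, hyz, rfl⟩
  have hTF : ({x, y, z} : Finset V) ⊆ F := by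
    intro f hf
    simp only [Finset.mem_insert, Finset.mem_singleton] at hf
    rcases hf with rfl | rfl | rfl <;> assumption
  have hTpar : ∀ f ∈ ({x, y, z} : Finset V), ∀ g ∈ ({x, y, z} : Finset V), f ≠ g →
      par (c f g) = ρ := by
    intro f hf g hg hfg
    simp only [Finset.mem_insert, Finset.mem_singleton] at hf hg
    rcases hf with rfl | rfl | rfl <;> rcases hg with rfl | rfl | rfl
    · exact absurd rfl hfg
    · exact e1
    · exact e2
    · rw [hc]; exact e1
    · exact absurd rfl hfg
    · exact e3
    · rw [hc]; exact e2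
    · rw [hc]; exact e3
    · exact absurd rfl hfg
  set T : Finset V := {x, y, z} with hTdef
  have hR : (F \ T).card = 5 := by
    rw [Finset.card_sdiff_of_subset hTF, hF, hT]
  by_cases hcase : ∃ p ∈ F \ T, ∃ q ∈ F \ T, ∃ r ∈ F \ T, ∃ s ∈ F \ T, p ≠ q ∧ r ≠ s ∧
      ({p, q} : Finset V) ≠ {r, s} ∧ par (c p q) ≠ ρ ∧ par (c r s) ≠ ρ
  · obtain ⟨p, hp, q, hq, r, hr, s, hs, hpq, hrs, hne, h1, h2⟩ := hcase
    have hsub : ({p, q, r, s} : Finset V) ⊆ F \ T := by
      intro f hf
      rw [Finset.mem_insert, Finset.mem_insert, Finset.mem_insert, Finset.mem_singleton] at hf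
      rcases hf with rfl | rfl | rfl | rfl <;> assumption
    obtain ⟨W, hW1, hW2, hWc⟩ := Finset.exists_subsuperset_card_eq (n := 4) hsub
      Finset.card_le_four (by omega)
    have hrowW : Row c ρ (Ex ρ) W :=
      row_four hc (hE ρ) hWc (hW1 (by simp)) (hW1 (by simp)) (hW1 (by simp)) (hW1 (by simp))
        hpq hrs hne h1 h2
    refine ⟨ρ, W, hW2.trans Finset.sdiff_subset, hrowW, ?_⟩
    have hcardv : ((F \ T) \ W).card = 1 := by
      rw [Finset.card_sdiff_of_subset hW2, hR, hWc]
    obtain ⟨v, hv⟩ := Finset.card_eq_one.mp hcardv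
    have hvm : v ∈ (F \ T) \ W := by rw [hv]; simp
    have hvT : v ∉ T := (Finset.mem_sdiff.mp (Finset.mem_sdiff.mp hvm).1).2
    have h0 : Row c (ρ + 1) (Ex (ρ + 1)) {v} :=
      row_le_three hc (hE (ρ + 1)) (by simp)
    have h3 := row_many hc h0 T (by
      intro u hu
      refine ⟨?_, ?_⟩
      · intro hh
        rw [Finset.mem_singleton] at hh
        exact hvT (hh ▸ hu)
      · have hs1 : ({v} ∪ T).filter (fun f => f ≠ u ∧ par (c f u) = ρ + 1) ⊆ {v} := by
          intro f hf
          obtain ⟨a1, a2, a3⟩ := Finset.mem_filter.mp hf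
          rcases Finset.mem_union.mp a1 with a4 | a4
          · exact a4
          · rw [hTpar f a4 u hu a2] at a3
            exact absurd a3.symm (zmod2_add_ne ρ)
        have := Finset.card_le_card hs1
        rw [Finset.card_singleton] at this
        have := hE (ρ + 1) u
        omega)
    refine row_congr h3 ?_
    intro f hf
    by_cases hfT : f ∈ T
    · exact Finset.mem_union_right _ hfT
    · refine Finset.mem_union_left _ ?_
      rw [← hv]
      have := Finset.mem_sdiff.mp hf
      exact Finset.mem_sdiff.mpr ⟨Finset.mem_sdiff.mpr ⟨this.1, hfT⟩, this.2⟩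
  · -- a clique of four points of parity rho
    have hQ : ∃ Q ⊆ F \ T, Q.card = 4 ∧ ∀ f ∈ Q, ∀ g ∈ Q, f ≠ g → par (c f g) = ρ := by
      by_cases hpair : ∃ p ∈ F \ T, ∃ q ∈ F \ T, p ≠ q ∧ par (c p q) ≠ ρ
      · obtain ⟨p, hp, q, hq, hpq, h1⟩ := hpair
        refine ⟨(F \ T).erase p, Finset.erase_subset _ _, ?_, ?_⟩
        · rw [Finset.card_erase_of_mem hp, hR]
        · intro f hf g hg hfg
          by_contra hcon
          apply hcase
          refine ⟨p, hp, q, hq, f, Finset.mem_of_mem_erase hf, g, Finset.mem_of_mem_erase hg,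
            hpq, hfg, ?_, h1, hcon⟩
          intro hh
          have : p ∈ ({f, g} : Finset V) := by rw [← hh]; simp
          rw [Finset.mem_insert, Finset.mem_singleton] at this
          rcases this with rfl | rfl
          · exact (Finset.mem_erase.mp hf).1 rfl
          · exact (Finset.mem_erase.mp hg).1 rfl
      · obtain ⟨Q, hQ1, hQ2⟩ := Finset.exists_subset_card_eq (s := F \ T) (n := 4) (by omega)
        refine ⟨Q, hQ1, hQ2, ?_⟩
        intro f hf g hg hfg
        by_contra hcon
        exact hpair ⟨f, hQ1 hf, g, hQ1 hg, hfg, hcon⟩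
    obtain ⟨Q, hQR, hQc, hQpar⟩ := hQ
    have hQF : Q ⊆ F := hQR.trans Finset.sdiff_subset
    have hWc : (F \ Q).card = 4 := by
      rw [Finset.card_sdiff_of_subset hQF, hF, hQc]
    by_cases hcase2 : ∃ p ∈ F \ Q, ∃ q ∈ F \ Q, ∃ r ∈ F \ Q, ∃ s ∈ F \ Q, p ≠ q ∧ r ≠ s ∧
      ({p, q} : Finset V) ≠ {r, s} ∧ par (c p q) ≠ ρ ∧ par (c r s) ≠ ρ
    · obtain ⟨p, hp, q, hq, r, hr, s, hs, hpq, hrs, hne, h1, h2⟩ := hcase2
      refine ⟨ρ, F \ Q, Finset.sdiff_subset,
        row_four hc (hE ρ) hWc hp hq hr hs hpq hrs hne h1 h2, ?_⟩
      rw [Finset.sdiff_sdiff_eq_self hQF]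
      refine row_free (fun f _ => (hE _ f).trans (by norm_num)) ?_
      intro f hf g hg hfg hh
      rw [hQpar f hf g hg hfg] at hh
      exact zmod2_add_ne ρ hh.symm
    · obtain ⟨q, hq⟩ : Q.Nonempty := Finset.card_pos.mp (by omega)
      have hrowA : ∃ B : Finset V, insert q (F \ Q) ⊆ B ∧ Row c (ρ + 1) (Ex (ρ + 1)) B := by
        by_cases hpair : ∃ w ∈ F \ Q, ∃ w' ∈ F \ Q, w ≠ w' ∧ par (c w w') ≠ ρ
        · obtain ⟨w, hw, w', hw', hww, h1⟩ := hpair
          have h0 : Row c (ρ + 1) (Ex (ρ + 1)) {q, w, w'} :=
            row_le_three hc (hE (ρ + 1)) Finset.card_le_three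
          refine ⟨{q, w, w'} ∪ ((F \ Q) \ {w, w'}), ?_, row_many hc h0 _ ?_⟩
          · intro f hf
            simp only [Finset.mem_insert, Finset.mem_union, Finset.mem_sdiff,
              Finset.mem_singleton] at hf ⊢
            tauto
          · intro u hu
            obtain ⟨hu1, hu2⟩ := Finset.mem_sdiff.mp hu
            have huw : u ≠ w ∧ u ≠ w' := by
              constructor
              · rintro rfl; exact hu2 (by simp)
              · rintro rfl; exact hu2 (by simp)
            refine ⟨?_, ?_⟩
            · simp only [Finset.mem_insert, Finset.mem_singleton, not_or]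
              refine ⟨?_, huw.1, huw.2⟩
              rintro rfl
              exact (Finset.mem_sdiff.mp hu1).2 hq
            · have hs1 : (({q, w, w'} : Finset V) ∪ ((F \ Q) \ {w, w'})).filter
                  (fun f => f ≠ u ∧ par (c f u) = ρ + 1) ⊆ {q} := by
                intro f hf
                obtain ⟨a1, a2, a3⟩ := Finset.mem_filter.mp hf
                by_contra hfq
                have hfW : f ∈ F \ Q := by
                  rcases Finset.mem_union.mp a1 with a4 | a4
                  · rw [Finset.mem_insert, Finset.mem_insert, Finset.mem_singleton] at a4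
                    rcases a4 with rfl | rfl | rfl
                    · exact absurd (by simp) hfq
                    · exact hw
                    · exact hw'
                  · exact (Finset.mem_sdiff.mp a4).1
                apply hcase2
                refine ⟨w, hw, w', hw', f, hfW, u, hu1, hww, a2, ?_, h1, ?_⟩
                · intro hh
                  have : u ∈ ({w, w'} : Finset V) := by rw [hh]; simp
                  exact hu2 this
                · rw [a3]; exact zmod2_add_ne ρ
              have h5 := Finset.card_le_card hs1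
              rw [Finset.card_singleton] at h5
              have h6 := hE (ρ + 1) u
              omega
        · have h0 : Row c (ρ + 1) (Ex (ρ + 1)) {q} :=
            row_le_three hc (hE (ρ + 1)) (by simp)
          refine ⟨{q} ∪ (F \ Q), ?_, row_many hc h0 _ ?_⟩
          · intro f hf
            simpa [Finset.mem_insert, Finset.mem_union] using hf
          · intro u hu
            refine ⟨?_, ?_⟩
            · rw [Finset.mem_singleton]
              rintro rfl
              exact (Finset.mem_sdiff.mp hu).2 hq
            · have hs1 : (({q} : Finset V) ∪ (F \ Q)).filter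
                  (fun f => f ≠ u ∧ par (c f u) = ρ + 1) ⊆ {q} := by
                intro f hf
                obtain ⟨a1, a2, a3⟩ := Finset.mem_filter.mp hf
                rcases Finset.mem_union.mp a1 with a4 | a4
                · exact a4
                · exfalso
                  apply hpair
                  exact ⟨f, a4, u, hu, a2, by rw [a3]; exact zmod2_add_ne ρ⟩
              have h5 := Finset.card_le_card hs1
              rw [Finset.card_singleton] at h5
              have h6 := hE (ρ + 1) u
              omega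
      obtain ⟨B, hB, hrowB⟩ := hrowA
      have hrow2 : Row c (ρ + 1 + 1) (Ex (ρ + 1 + 1)) (F \ insert q (F \ Q)) := by
        refine row_congr (A := Q.erase q) ?_ ?_
        · refine row_le_three hc (hE _) ?_
          rw [Finset.card_erase_of_mem hq, hQc]
        · intro f hf
          obtain ⟨a1, a2⟩ := Finset.mem_sdiff.mp hf
          rw [Finset.mem_insert, not_or] at a2
          refine Finset.mem_erase.mpr ⟨a2.1, ?_⟩
          by_contra hfQ
          exact a2.2 (Finset.mem_sdiff.mpr ⟨a1, hfQ⟩)
      refine ⟨ρ + 1, insert q (F \ Q), ?_, row_congr hrowB hB, hrow2⟩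
      intro f hf
      rcases Finset.mem_insert.mp hf with rfl | hf
      · exact hQF hq
      · exact (Finset.mem_sdiff.mp hf).1

end Pool.Agent.H59R
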