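import Mathlib
import Pool.Agent.H59R.RowC59

/-!
Splitting eight points: the requests of one parity.
-/

namespace Pool.Agent.H59R

open Pool.Agent.RA6 Finset

set_option linter.unusedSectionVars false

variable {V : Type} [DecidableEq V]

theorem five_gen (k01 k02 k12 k03 k13 k23 k04 k14 k24 k34 : ZMod 3) :
    ∃ a b c d e : ZMod 3, (a + b ≠ k01 ∧ a + c ≠ k02 ∧ b + c ≠ k12) ∧
      (a + d ≠ k03 ∧ b + d ≠ k13 ∧ c + d ≠ k23) ∧
      (a + e ≠ k04 ∧ b + e ≠ k14 ∧ c + e ≠ k24 ∧ d + e ≠ k34) := by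
  have h3 : (3 : ZMod 3) = 0 := rfl
  set l0 := -k01 - k02 + k12 with hl0
  set l1 := k01 - l0 with hl1
  set l2 := k02 - l0 with hl2
  set l3 := k03 - l0 with hl3
  set l4 := k04 - l0 with hl4
  have e12 : l1 + l2 = k12 := by
    have : l1 + l2 = k12 + 3 * (k01 + k02 - k12) := by
      rw [hl1, hl2, hl0]; ring
    rw [this, h3]; ring
  obtain ⟨a, b, c, ⟨h1, h2, h4⟩, d, ⟨h5, h6, h7⟩, e, h8, h9, h10, h11⟩ :=
    five_norm (k13 - l1 - l3) (k23 - l2 - l3) (k14 - l1 - l4) (k24 - l2 - l4) (k34 - l3 - l4)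
  refine ⟨l0 + a, l1 + b, l2 + c, l3 + d, l4 + e, ⟨?_, ?_, ?_⟩, ⟨?_, ?_, ?_⟩, ?_, ?_, ?_, ?_⟩
  · intro hh; apply h1
    have : a + b = (l0 + a + (l1 + b)) - k01 := by rw [hl1]; ring
    rw [this, hh]; ring
  · intro hh; apply h2
    have : a + c = (l0 + a + (l2 + c)) - k02 := by rw [hl2]; ring
    rw [this, hh]; ring
  · intro hh; apply h4
    have : b + c = (l1 + b + (l2 + c)) - (l1 + l2) := by ring
    rw [this, hh, e12]; ring
  · intro hh; apply h5
    have : a + d = (l0 + a + (l3 + d)) - k03 := by rw [hl3]; ring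
    rw [this, hh]; ring
  · intro hh; apply h6
    rw [← hh]; ring
  · intro hh; apply h7
    rw [← hh]; ring
  · intro hh; apply h8
    have : a + e = (l0 + a + (l4 + e)) - k04 := by rw [hl4]; ring
    rw [this, hh]; ring
  · intro hh; apply h9
    rw [← hh]; ring
  · intro hh; apply h10
    rw [← hh]; ring
  · intro hh; apply h11
    rw [← hh]; ring

/-- Five points with all values allowed. -/
theorem row_five {c : V → V → ZMod 6} (hc : ∀ x y, c x y = c y x) {β : ZMod 2}
    {Ex : V → Finset (ZMod 3)} (hE : ∀ f, Ex f = ∅) {A : Finset V} (hA : A.card = 5) :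
    Row c β Ex A := by
  have ix := A.equivFinOfCardEq hA
  set x : Fin 5 → V := fun i => (ix.symm i : V) with hx
  obtain ⟨a0, a1, a2, a3, a4, ⟨h1, h2, h3⟩, ⟨h4, h5, h6⟩, h7, h8, h9, h10⟩ :=
    five_gen (2 - vl (c (x 0) (x 1))) (2 - vl (c (x 0) (x 2))) (2 - vl (c (x 1) (x 2)))
      (2 - vl (c (x 0) (x 3))) (2 - vl (c (x 1) (x 3))) (2 - vl (c (x 2) (x 3)))
      (2 - vl (c (x 0) (x 4))) (2 - vl (c (x 1) (x 4))) (2 - vl (c (x 2) (x 4)))
      (2 - vl (c (x 3) (x 4)))
  have main : ∀ i j : Fin 5, i < j → (![a0, a1, a2, a3, a4] : Fin 5 → ZMod 3) i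
      + (![a0, a1, a2, a3, a4] : Fin 5 → ZMod 3) j ≠ 2 - vl (c (x i) (x j)) := by
    intro i j hij
    fin_cases i <;> fin_cases j <;> first
      | exact absurd hij (by decide)
      | assumption
  set a : Fin 5 → ZMod 3 := ![a0, a1, a2, a3, a4] with ha
  have main2 : ∀ i j : Fin 5, i ≠ j → a i + a j + vl (c (x i) (x j)) ≠ 2 := by
    intro i j hij hh
    rcases lt_or_gt_of_ne hij with h | h
    · exact main i j h (by rw [← hh]; ring)
    · exact main j i h (by rw [← hh, hc (x i) (x j)]; ring)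
  refine ⟨fun f => if h : f ∈ A then a (ix ⟨f, h⟩) else 0, ?_, ?_⟩
  · intro f _; rw [hE f]; simp
  · intro f hf g hg hfg _
    simp only [dif_pos hf, dif_pos hg]
    have hne : ix ⟨f, hf⟩ ≠ ix ⟨g, hg⟩ := by
      intro hh
      apply hfg
      have := ix.injective hh
      exact congrArg Subtype.val this
    have := main2 _ _ hne
    rw [hx] at this
    simpa using this

/-- The condition at one further point. -/
def OneMore (a b p q : ZMod 3) : Prop := ∃ d : ZMod 3, d ≠ 0 ∧ a + d ≠ p ∧ b + d ≠ q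

instance (a b p q : ZMod 3) : Decidable (OneMore a b p q) := by
  unfold OneMore; infer_instance

/-- The conditions at three further points. -/
def ThreeMore (p1 q1 p2 q2 p3 q3 : ZMod 3) : Prop :=
  ∃ a b : ZMod 3, OneMore a b p1 q1 ∧ OneMore a b p2 q2 ∧ OneMore a b p3 q3

instance (p1 q1 p2 q2 p3 q3 : ZMod 3) : Decidable (ThreeMore p1 q1 p2 q2 p3 q3) := by
  unfold ThreeMore; infer_instance

theorem nine_norm : ∀ p1 q1 p2 q2 p3 q3 : ZMod 3, ThreeMore p1 q1 p2 q2 p3 q3 := by decide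

/-- Six points without a triangle of parity `β`, all values allowed. -/
theorem row_six {c : V → V → ZMod 6} (hc : ∀ x y, c x y = c y x) {β : ZMod 2}
    {Ex : V → Finset (ZMod 3)} (hE : ∀ f, Ex f = ∅) {A : Finset V} (hA : A.card = 6)
    (hno : ∀ x ∈ A, ∀ y ∈ A, ∀ z ∈ A, x ≠ y → x ≠ z → y ≠ z → par (c x y) = β →
      par (c x z) = β → par (c y z) ≠ β) : Row c β Ex A := by
  obtain ⟨ρ, x, hx, y, hy, z, hz, ⟨hxy, hxz, hyz⟩, e1, e2, e3⟩ := ramsey hc (F := A) (by omega)
  have hρ : ρ ≠ β := by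
    rintro rfl
    exact hno x hx y hy z hz hxy hxz hyz e1 e2 e3
  have hTA : ({x, y, z} : Finset V) ⊆ A := by
    intro f hf
    simp only [Finset.mem_insert, Finset.mem_singleton] at hf
    rcases hf with rfl | rfl | rfl <;> assumption
  have hTpar : ∀ f ∈ ({x, y, z} : Finset V), ∀ g ∈ ({x, y, z} : Finset V), f ≠ g →
      par (c f g) ≠ β := by
    intro f hf g hg hfg
    simp only [Finset.mem_insert, Finset.mem_singleton] at hf hg
    rcases hf with rfl | rfl | rfl <;> rcases hg with rfl | rfl | rfl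
    · exact absurd rfl hfg
    · rw [e1]; exact hρ
    · rw [e2]; exact hρ
    · rw [hc, e1]; exact hρ
    · exact absurd rfl hfg
    · rw [e3]; exact hρ
    · rw [hc, e2]; exact hρ
    · rw [hc, e3]; exact hρ
    · exact absurd rfl hfg
  have hT : ({x, y, z} : Finset V).card = 3 := Finset.card_eq_three.mpr ⟨x, y, z, hxy, hxz, hyz, rfl⟩
  set T : Finset V := {x, y, z} with hTdef
  have hPc : (A \ T).card = 3 := by
    rw [Finset.card_sdiff_of_subset hTA, hA, hT]
  have hE1 : ∀ f, (Ex f).card ≤ 1 := by intro f; rw [hE f]; simp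
  by_cases hq : ∃ q ∈ T, ∀ p ∈ A \ T, par (c p q) = β
  · obtain ⟨q, hq, hqp⟩ := hq
    have hqA := hTA hq
    have hPpar : ∀ f ∈ A \ T, ∀ g ∈ A \ T, f ≠ g → par (c f g) ≠ β := by
      intro f hf g hg hfg
      have hf1 := (Finset.mem_sdiff.mp hf)
      have hg1 := (Finset.mem_sdiff.mp hg)
      refine hno q hqA f hf1.1 g hg1.1 ?_ ?_ hfg ?_ ?_
      · rintro rfl; exact hf1.2 hq
      · rintro rfl; exact hg1.2 hq
      · rw [hc]; exact hqp f hf
      · rw [hc]; exact hqp g hg
    obtain ⟨p1, p2, p3, h12, h13, h23, hP⟩ := Finset.card_eq_three.mp hPc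
    -- the values on P
    obtain ⟨a, b, hd⟩ := nine_norm
      (2 - vl (c p2 x) - (2 - vl (c p1 x))) (2 - vl (c p3 x) - (2 - vl (c p1 x)))
      (2 - vl (c p2 y) - (2 - vl (c p1 y))) (2 - vl (c p3 y) - (2 - vl (c p1 y)))
      (2 - vl (c p2 z) - (2 - vl (c p1 z))) (2 - vl (c p3 z) - (2 - vl (c p1 z)))
    set v1 : V → ZMod 3 := fun f => if f = p1 then 0 else if f = p2 then a else b with hv1
    have w1 : v1 p1 = 0 := by rw [hv1]; simp
    have w2 : v1 p2 = a := by rw [hv1]; simp [Ne.symm h12]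
    have w3 : v1 p3 = b := by rw [hv1]; simp [Ne.symm h13, Ne.symm h23]
    have fin : ∀ t : V, (∃ d : ZMod 3, d ≠ 0 ∧ a + d ≠ 2 - vl (c p2 t) - (2 - vl (c p1 t)) ∧
        b + d ≠ 2 - vl (c p3 t) - (2 - vl (c p1 t))) →
        ∃ e : ZMod 3, ∀ p ∈ A \ T, v1 p + e + vl (c p t) ≠ 2 := by
      rintro t ⟨d, d1, d2, d3⟩
      refine ⟨2 - vl (c p1 t) + d, ?_⟩
      intro p hp
      rw [hP] at hp
      simp only [Finset.mem_insert, Finset.mem_singleton] at hp
      rcases hp with rfl | rfl | rfl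
      · rw [w1]; intro hh; apply d1
        have : d = 0 + (2 - vl (c p t) + d) + vl (c p t) - 2 := by ring
        rw [this, hh]; ring
      · rw [w2]; intro hh; apply d2
        have : a + d = (a + (2 - vl (c p1 t) + d) + vl (c p t)) - 2 + vl (c p1 t)
          - vl (c p t) := by ring
        rw [this, hh]; ring
      · rw [w3]; intro hh; apply d3
        have : b + d = (b + (2 - vl (c p1 t) + d) + vl (c p t)) - 2 + vl (c p1 t)
          - vl (c p t) := by ring
        rw [this, hh]; ring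
    have hall : ∀ t, ∃ e : ZMod 3, t ∈ T → ∀ p ∈ A \ T, v1 p + e + vl (c p t) ≠ 2 := by
      intro t
      by_cases ht : t ∈ T
      · have : ∃ e : ZMod 3, ∀ p ∈ A \ T, v1 p + e + vl (c p t) ≠ 2 := by
          rw [hTdef] at ht
          simp only [Finset.mem_insert, Finset.mem_singleton] at ht
          rcases ht with rfl | rfl | rfl
          · exact fin t hd.1
          · exact fin t hd.2.1
          · exact fin t hd.2.2
        obtain ⟨e, he⟩ := this
        exact ⟨e, fun _ => he⟩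
      · exact ⟨0, fun hh => absurd hh ht⟩
    choose e he using hall
    refine ⟨fun f => if f ∈ T then e f else v1 f, ?_, ?_⟩
    · intro f _; rw [hE f]; simp
    · intro f hf g hg hfg hp
      by_cases hfT : f ∈ T <;> by_cases hgT : g ∈ T
      · exact absurd hp (hTpar f hfT g hgT hfg)
      · simp only [if_pos hfT, if_neg hgT]
        have := he f hfT g (Finset.mem_sdiff.mpr ⟨hg, hgT⟩)
        rw [hc f g, add_comm (e f)]
        exact this
      · simp only [if_neg hfT, if_pos hgT]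
        exact he g hgT f (Finset.mem_sdiff.mpr ⟨hf, hfT⟩)
      · exact absurd hp (hPpar f (Finset.mem_sdiff.mpr ⟨hf, hfT⟩) g
          (Finset.mem_sdiff.mpr ⟨hg, hgT⟩) hfg)
  · push Not at hq
    have h0 : Row c β Ex (A \ T) := row_le_three hc hE1 (by omega)
    have h1 := row_many hc h0 T (by
      intro u hu
      refine ⟨fun hh => (Finset.mem_sdiff.mp hh).2 hu, ?_⟩
      obtain ⟨p, hp, hpu⟩ := hq u hu
      have hs1 : ((A \ T) ∪ T).filter (fun f => f ≠ u ∧ par (c f u) = β) ⊆ (A \ T).erase p := by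
        intro f hf
        obtain ⟨a1, a2, a3⟩ := Finset.mem_filter.mp hf
        rcases Finset.mem_union.mp a1 with a4 | a4
        · refine Finset.mem_erase.mpr ⟨?_, a4⟩
          rintro rfl
          exact hpu a3
        · exact absurd a3 (hTpar f a4 u hu a2)
      have h5 := Finset.card_le_card hs1
      rw [Finset.card_erase_of_mem hp, hPc] at h5
      rw [hE u, Finset.card_empty]
      omega)
    refine row_congr h1 ?_
    intro f hf
    by_cases hfT : f ∈ T
    · exact Finset.mem_union_right _ hfT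
    · exact Finset.mem_union_left _ (Finset.mem_sdiff.mpr ⟨hf, hfT⟩)

/-- The split for a request of one parity. -/
theorem same_split {c : V → V → ZMod 6} (hc : ∀ x y, c x y = c y x) {F : Finset V}
    (hF : F.card = 8) {π : ZMod 2} {Ex : ZMod 2 → V → Finset (ZMod 3)}
    (hE : ∀ f, (Ex π f).card ≤ 2) (hE2 : ∀ f, Ex (π + 1) f = ∅) :
    ∃ A ⊆ F, Row c π (Ex π) A ∧ Row c (π + 1) (Ex (π + 1)) (F \ A) := by
  by_cases htri : ∃ x ∈ F, ∃ y ∈ F, ∃ z ∈ F, (x ≠ y ∧ x ≠ z ∧ y ≠ z) ∧
      par (c x y) = π + 1 ∧ par (c x z) = π + 1 ∧ par (c y z) = π + 1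
  · obtain ⟨x, hx, y, hy, z, hz, ⟨hxy, hxz, hyz⟩, e1, e2, e3⟩ := htri
    have hTF : ({x, y, z} : Finset V) ⊆ F := by
      intro f hf
      simp only [Finset.mem_insert, Finset.mem_singleton] at hf
      rcases hf with rfl | rfl | rfl <;> assumption
    refine ⟨{x, y, z}, hTF, row_free (fun f _ => hE f) ?_, row_five hc hE2 ?_⟩
    · intro f hf g hg hfg
      simp only [Finset.mem_insert, Finset.mem_singleton] at hf hg
      rcases hf with rfl | rfl | rfl <;> rcases hg with rfl | rfl | rfl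
      · exact absurd rfl hfg
      · rw [e1]; exact zmod2_add_ne π
      · rw [e2]; exact zmod2_add_ne π
      · rw [hc, e1]; exact zmod2_add_ne π
      · exact absurd rfl hfg
      · rw [e3]; exact zmod2_add_ne π
      · rw [hc, e2]; exact zmod2_add_ne π
      · rw [hc, e3]; exact zmod2_add_ne π
      · exact absurd rfl hfg
    · rw [Finset.card_sdiff_of_subset hTF, hF,
        Finset.card_eq_three.mpr ⟨x, y, z, hxy, hxz, hyz, rfl⟩]
  · by_cases hedge : ∃ x ∈ F, ∃ y ∈ F, x ≠ y ∧ par (c x y) = π + 1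
    · obtain ⟨x, hx, y, hy, hxy, e1⟩ := hedge
      have hTF : ({x, y} : Finset V) ⊆ F := by
        intro f hf
        simp only [Finset.mem_insert, Finset.mem_singleton] at hf
        rcases hf with rfl | rfl <;> assumption
      refine ⟨{x, y}, hTF, row_free (fun f _ => hE f) ?_, row_six hc hE2 ?_ ?_⟩
      · intro f hf g hg hfg
        simp only [Finset.mem_insert, Finset.mem_singleton] at hf hg
        rcases hf with rfl | rfl <;> rcases hg with rfl | rfl
        · exact absurd rfl hfg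
        · rw [e1]; exact zmod2_add_ne π
        · rw [hc, e1]; exact zmod2_add_ne π
        · exact absurd rfl hfg
      · rw [Finset.card_sdiff_of_subset hTF, hF, Finset.card_pair hxy]
      · intro a ha b hb d hd hab had hbd h1 h2 h3
        exact htri ⟨a, (Finset.mem_sdiff.mp ha).1, b, (Finset.mem_sdiff.mp hb).1, d,
          (Finset.mem_sdiff.mp hd).1, ⟨hab, had, hbd⟩, h1, h2, h3⟩
    · refine ⟨∅, by simp, row_free (by simp) (by simp), ?_⟩
      refine row_free (fun f _ => by rw [hE2 f]; simp) ?_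
      intro f hf g hg hfg hh
      exact hedge ⟨f, (Finset.mem_sdiff.mp hf).1, g, (Finset.mem_sdiff.mp hg).1, hfg, hh⟩

end Pool.Agent.H59R
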