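import Mathlib
import Pool.Agent.H59R.RowD59

/-!
The extension property: every colouring of the pairs of at most ten points.
-/

namespace Pool.Agent.H59R

open Pool.Agent.RA6 Finset

theorem glue {V : Type} [DecidableEq V] {c : V → V → ZMod 6} {F A : Finset V} {β : ZMod 2}
    {Ex : ZMod 2 → V → Finset (ZMod 3)} (h1 : Row c β (Ex β) A)
    (h2 : Row c (β + 1) (Ex (β + 1)) (F \ A)) :
    ∃ g : V → ZMod 6, (∀ f ∈ F, vl (g f) ∉ Ex (par (g f)) f) ∧
      ∀ f ∈ F, ∀ f' ∈ F, f ≠ f' → ¬ Forbidden (c f f') (g f) (g f') := by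
  obtain ⟨v, hv1, hv2⟩ := h1
  obtain ⟨w, hw1, hw2⟩ := h2
  refine ⟨fun f => if f ∈ A then mk β (v f) else mk (β + 1) (w f), ?_, ?_⟩
  · intro f hf
    by_cases hA : f ∈ A
    · simp only [if_pos hA, vl_mk, par_mk]
      exact hv1 f hA
    · simp only [if_neg hA, vl_mk, par_mk]
      exact hw1 f (Finset.mem_sdiff.mpr ⟨hf, hA⟩)
  · intro f hf f' hf' hne hforb
    obtain ⟨p1, p2, p3⟩ := (forb_iff' _ _ _).mp hforb
    by_cases hA : f ∈ A <;> by_cases hA' : f' ∈ A
    · simp only [if_pos hA, if_pos hA', vl_mk, par_mk] at p1 p2 p3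
      exact hv2 f hA f' hA' hne p1 (by rw [← p3]; ring)
    · simp only [if_pos hA, if_neg hA', par_mk] at p2
      exact zmod2_add_ne β p2.symm
    · simp only [if_neg hA, if_pos hA', par_mk] at p2
      exact zmod2_add_ne β p2
    · simp only [if_neg hA, if_neg hA', vl_mk, par_mk] at p1 p2 p3
      exact hw2 f (Finset.mem_sdiff.mpr ⟨hf, hA⟩) f' (Finset.mem_sdiff.mpr ⟨hf', hA'⟩) hne p1
        (by rw [← p3]; ring)

theorem extend {V : Type} [Fintype V] (hV : Fintype.card V ≤ 10)
    {c : V → V → ZMod 6} (hc : ∀ x y, c x y = c y x) {x y : V} (hxy : x ≠ y) {s t : ZMod 6}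
    (hst : ¬ Forbidden (c x y) s t) :
    ∃ g : V → ZMod 6, g x = s ∧ g y = t ∧
      ∀ p q, p ≠ q → ¬ Forbidden (c p q) (g p) (g q) := by
  classical
  -- pad to exactly eight further points
  let c' : V ⊕ Fin 8 → V ⊕ Fin 8 → ZMod 6 := fun a b =>
    match a, b with
    | Sum.inl a, Sum.inl b => c a b
    | _, _ => 0
  have hc' : ∀ a b, c' a b = c' b a := by
    rintro (a | a) (b | b)
    · exact hc a b
    · rfl
    · rfl
    · rfl
  have hF0 : (((univ : Finset V) \ {x, y}).map
      (Function.Embedding.inl : V ↪ V ⊕ Fin 8)).card ≤ 8 := by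
    rw [Finset.card_map, Finset.card_sdiff_of_subset (Finset.subset_univ _), Finset.card_univ,
      Finset.card_pair hxy]
    omega
  obtain ⟨F, hF1, hF⟩ := Finset.exists_superset_card_eq
    (s := ((univ : Finset V) \ {x, y}).map (Function.Embedding.inl : V ↪ V ⊕ Fin 8)) hF0
    (by rw [Fintype.card_sum, Fintype.card_fin]; omega)
  let Ex : ZMod 2 → V ⊕ Fin 8 → Finset (ZMod 3) := fun b f =>
    (if b = par s then {2 - vl s - vl (c' (Sum.inl x) f)} else ∅) ∪
    (if b = par t then {2 - vl t - vl (c' (Sum.inl y) f)} else ∅)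
  have hsplit : ∃ β, ∃ A ⊆ F, Row c' β (Ex β) A ∧ Row c' (β + 1) (Ex (β + 1)) (F \ A) := by
    by_cases hpar : par s = par t
    · have hE : ∀ f, (Ex (par s) f).card ≤ 2 := by
        intro f
        refine (Finset.card_union_le _ _).trans ?_
        rw [if_pos rfl, if_pos hpar]
        simp
      have hE2 : ∀ f, Ex (par s + 1) f = ∅ := by
        intro f
        have e1 : ¬ (par s + 1 = par s) := zmod2_add_ne _
        have e2 : ¬ (par s + 1 = par t) := by rw [← hpar]; exact zmod2_add_ne _
        show (if par s + 1 = par s then _ else ∅) ∪ (if par s + 1 = par t then _ else ∅) = ∅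
        rw [if_neg e1, if_neg e2]; simp
      obtain ⟨A, hA, h1, h2⟩ := same_split hc' hF hE hE2
      exact ⟨par s, A, hA, h1, h2⟩
    · refine mixed_split hc' hF ?_
      intro b f
      refine (Finset.card_union_le _ _).trans ?_
      by_cases hb : b = par s
      · have hb' : ¬ (b = par t) := fun hh => hpar (hb.symm.trans hh)
        rw [if_pos hb, if_neg hb']; simp
      · rw [if_neg hb]
        by_cases hb' : b = par t
        · rw [if_pos hb']; simp
        · rw [if_neg hb']; simp
  obtain ⟨β, A, _, h1, h2⟩ := hsplit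
  obtain ⟨g', hg1, hg2⟩ := glue h1 h2
  have hmem : ∀ p : V, p ≠ x → p ≠ y → (Sum.inl p : V ⊕ Fin 8) ∈ F := by
    intro p hpx hpy
    refine hF1 (Finset.mem_map.mpr ⟨p, ?_, rfl⟩)
    simp [hpx, hpy]
  have hsym : ∀ a s t : ZMod 6, Forbidden a s t → Forbidden a t s :=
    fun a s t h => forb_swap23 _ _ _ h
  have hx1 : ∀ p, p ≠ x → p ≠ y → ¬ Forbidden (c x p) s (g' (Sum.inl p)) := by
    intro p hpx hpy hforb
    obtain ⟨p1, p2, p3⟩ := (forb_iff' _ _ _).mp hforb
    apply hg1 _ (hmem p hpx hpy)
    refine Finset.mem_union_left _ ?_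
    rw [if_pos p2.symm, Finset.mem_singleton, ← p3]
    show _ = vl (c x p) + vl s + vl (g' (Sum.inl p)) - vl s - vl (c x p)
    ring
  have hy1 : ∀ p, p ≠ x → p ≠ y → ¬ Forbidden (c y p) t (g' (Sum.inl p)) := by
    intro p hpx hpy hforb
    obtain ⟨p1, p2, p3⟩ := (forb_iff' _ _ _).mp hforb
    apply hg1 _ (hmem p hpx hpy)
    refine Finset.mem_union_right _ ?_
    rw [if_pos p2.symm, Finset.mem_singleton, ← p3]
    show _ = vl (c y p) + vl t + vl (g' (Sum.inl p)) - vl t - vl (c y p)
    ring
  refine ⟨fun p => if p = x then s else if p = y then t else g' (Sum.inl p), by simp,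
    by simp [Ne.symm hxy], ?_⟩
  intro p q hpq
  by_cases px : p = x
  · subst px
    by_cases qy : q = y
    · subst qy
      simpa [Ne.symm hpq] using hst
    · have hqp : q ≠ p := Ne.symm hpq
      simpa [hqp, qy] using hx1 q hqp qy
  · by_cases py : p = y
    · subst py
      by_cases qx : q = x
      · subst qx
        intro hh
        simp only [if_neg px, if_true] at hh
        apply hst
        rw [hc q p]
        exact hsym _ _ _ hh
      · have hqp : q ≠ p := Ne.symm hpq
        simpa [px, hqp, qx] using hy1 q qx hqp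
    · by_cases qx : q = x
      · subst qx
        intro hh
        simp only [if_neg px, if_neg py, if_true] at hh
        apply hx1 p px py
        rw [hc q p]
        exact hsym _ _ _ hh
      · by_cases qy : q = y
        · subst qy
          intro hh
          simp only [if_neg px, if_neg py, if_neg qx, if_true] at hh
          apply hy1 p px py
          rw [hc q p]
          exact hsym _ _ _ hh
        · simp only [if_neg px, if_neg py, if_neg qx, if_neg qy]
          exact hg2 _ (hmem p px py) _ (hmem q qx qy) (fun hh => hpq (Sum.inl.inj hh))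

theorem extend_one {V : Type} [Fintype V] (hV : Fintype.card V ≤ 10)
    {c : V → V → ZMod 6} (hc : ∀ x y, c x y = c y x) (x : V) (s : ZMod 6) :
    ∃ g : V → ZMod 6, g x = s ∧ ∀ p q, p ≠ q → ¬ Forbidden (c p q) (g p) (g q) := by
  by_cases h : ∃ y, x ≠ y
  · obtain ⟨y, hxy⟩ := h
    obtain ⟨t, ht⟩ := exists_third (c x y) s
    obtain ⟨g, h1, _, h3⟩ := extend hV hc hxy ht
    exact ⟨g, h1, h3⟩
  · push Not at h
    exact ⟨fun _ => s, rfl, fun p q hpq => absurd ((h p).symm.trans (h q)) hpq⟩

end Pool.Agent.H59R
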