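import Mathlib
import Pool.Agent.H59R.BasisDefs59
import Pool.Agent.H59R.RowE59

/-!
A_6([i,i,i+2]) has an eleven dimensional relational basis.
-/

namespace Pool.Agent.H59R

open Pool.Agent.RA6 Finset

theorem atomOf_self' {U : Type} (c : U → U → ZMod 6) (x : U) : atomOf c x x = none := by
  simp [atomOf]

theorem atomOf_ne' {U : Type} (c : U → U → ZMod 6) {x y : U} (h : x ≠ y) :
    atomOf c x y = some (c x y) := by
  simp [atomOf, h]

/-- The triangle condition for a colouring without forbidden triangle. -/
theorem atomOf_tri {U : Type} {c : U → U → ZMod 6} (hc : ∀ x y, c x y = c y x)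
    (hT : ∀ x y z, x ≠ y → y ≠ z → x ≠ z → ¬ Forbidden (c x y) (c y z) (c x z)) (x y w : U) :
    atomOf c x y ∈ atomComp (atomOf c x w) (atomOf c w y) := by
  by_cases h1 : x = w
  · subst h1
    rw [atomOf_self']
    exact rfl
  · by_cases h2 : w = y
    · subst h2
      rw [atomOf_self', atomOf_ne' c h1]
      exact rfl
    · rw [atomOf_ne' c h1, atomOf_ne' c h2]
      by_cases h3 : x = y
      · subst h3
        right
        exact ⟨atomOf_self' c x, hc x w⟩
      · left
        exact ⟨c x y, atomOf_ne' c h3, hT x w y h1 h2 h3⟩

theorem atomOf_symm {U : Type} {c : U → U → ZMod 6} (hc : ∀ x y, c x y = c y x) (x y : U) :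
    atomOf c x y = atomOf c y x := by
  by_cases hxy : x = y
  · subst hxy; rfl
  · rw [atomOf_ne' c hxy, atomOf_ne' c (Ne.symm hxy), hc x y]

theorem basic_pull {n : ℕ} {U : Type} {c : U → U → ZMod 6} (hc : ∀ x y, c x y = c y x)
    (hT : ∀ x y z, x ≠ y → y ≠ z → x ≠ z → ¬ Forbidden (c x y) (c y z) (c x z))
    (φ : Fin n → U) : IsBasic (fun p q => atomOf c (φ p) (φ q)) :=
  ⟨fun _ => atomOf_self' c _, fun _ _ => atomOf_symm hc _ _, fun _ _ _ => atomOf_tri hc hT _ _ _⟩

theorem basic_comp {n m : ℕ} {M : Fin n → Fin n → Atom} (hM : IsBasic M) (φ : Fin m → Fin n) :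
    IsBasic (fun p q => M (φ p) (φ q)) :=
  ⟨fun _ => hM.diag _, fun _ _ => hM.symm _ _, fun _ _ _ => hM.tri _ _ _⟩

/-- A basic matrix, seen on the classes of points, is a colouring. -/
theorem exists_classes {n : ℕ} {M : Fin n → Fin n → Atom} (hM : IsBasic M) (k : Fin n) :
    ∃ (V : Type) (_ : Fintype V) (c : V → V → ZMod 6) (φ : {p : Fin n // p ≠ k} → V),
      Fintype.card V ≤ n - 1 ∧ (∀ x y, c x y = c y x) ∧
      (∀ x y z, x ≠ y → y ≠ z → x ≠ z → ¬ Forbidden (c x y) (c y z) (c x z)) ∧
      Function.Surjective φ ∧ ∀ p q, M p.1 q.1 = atomOf c (φ p) (φ q) := by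
  classical
  have htrans : ∀ p q r, M p q = none → M q r = none → M p r = none := by
    intro p q r h1 h2
    have := hM.tri p r q
    rw [h1, h2] at this
    exact this
  have hcong : ∀ p p' q, M p p' = none → M p q = M p' q := by
    intro p p' q h1
    have := hM.tri p q p'
    rw [h1] at this
    exact this
  let st : Setoid {p : Fin n // p ≠ k} :=
    ⟨fun p q => M p.1 q.1 = none, fun p => hM.diag _, fun {p q} h => by rw [hM.symm]; exact h,
      fun {p q r} h1 h2 => htrans _ _ _ h1 h2⟩
  have hcong2 : ∀ p q p' q' : {p : Fin n // p ≠ k}, M p.1 p'.1 = none → M q.1 q'.1 = none →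
      M p.1 q.1 = M p'.1 q'.1 := by
    intro p q p' q' h1 h2
    rw [hcong _ _ q.1 h1, hM.symm, hcong _ _ p'.1 h2, hM.symm]
  let c : Quotient st → Quotient st → ZMod 6 := fun x y =>
    Quotient.liftOn₂ x y (fun p q => (M p.1 q.1).getD 0) (by
      intro p q p' q' h1 h2
      show (M p.1 q.1).getD 0 = (M p'.1 q'.1).getD 0
      rw [hcong2 p q p' q' h1 h2])
  have hcval : ∀ p q : {p : Fin n // p ≠ k}, c (Quotient.mk st p) (Quotient.mk st q)
      = (M p.1 q.1).getD 0 := fun p q => rfl
  have hne : ∀ p q : {p : Fin n // p ≠ k}, Quotient.mk st p ≠ Quotient.mk st q →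
      M p.1 q.1 = some (c (Quotient.mk st p) (Quotient.mk st q)) := by
    intro p q h
    rw [hcval]
    cases hpq : M p.1 q.1 with
    | none => exact absurd (Quotient.sound (s := st) hpq) h
    | some v => rfl
  refine ⟨Quotient st, inferInstance, c, Quotient.mk st, ?_, ?_, ?_, Quotient.mk_surjective, ?_⟩
  · refine (Fintype.card_quotient_le st).trans ?_
    rw [Fintype.card_subtype_compl, Fintype.card_fin, Fintype.card_subtype_eq]
  · intro x y
    induction x using Quotient.inductionOn with
    | h p =>
      induction y using Quotient.inductionOn with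
      | h q => rw [hcval, hcval, hM.symm]
  · intro x y z
    induction x using Quotient.inductionOn with
    | h p =>
      induction y using Quotient.inductionOn with
      | h q =>
        induction z using Quotient.inductionOn with
        | h r =>
          intro h1 h2 h3
          have := hM.tri p.1 r.1 q.1
          rw [hne p q h1, hne q r h2, hne p r h3] at this
          rcases this with ⟨u, hu, hf⟩ | ⟨hh, _⟩
          · rw [Option.some.inj hu]; exact hf
          · exact absurd hh (by simp)
  · intro p q
    by_cases h : Quotient.mk st p = Quotient.mk st q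
    · rw [h, atomOf_self']
      exact Quotient.exact h
    · rw [atomOf_ne' c h]
      exact hne p q h

theorem basis {n : ℕ} (hn : n ≤ 11) : IsRelationalBasis n {M | IsBasic M} := by
  classical
  refine ⟨fun M hM => hM, ?_, ?_⟩
  · intro a i j hij
    cases a with
    | none => exact ⟨fun _ _ => none, ⟨fun _ => rfl, fun _ _ => rfl, fun _ _ _ => rfl⟩, rfl⟩
    | some s =>
      -- two classes of points
      refine ⟨fun p q => atomOf (fun _ _ : Bool => s) (decide (p = i)) (decide (q = i)),
        basic_pull (fun _ _ => rfl) ?_ _, ?_⟩
      · intro x y z hxy hyz hxz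
        cases x <;> cases y <;> cases z <;> simp_all
      · have : (decide (i = i) : Bool) ≠ decide (j = i) := by
          simp [Ne.symm hij]
        exact atomOf_ne' _ this
  · intro M hM i j k hki hkj a b hab
    have hMb : IsBasic M := hM
    cases a with
    | none =>
      refine ⟨fun p q => M (if p = k then i else p) (if q = k then i else q),
        basic_comp hMb _, ?_, ?_, ?_⟩
      · simp only [if_neg (Ne.symm hki), if_true]
        exact hMb.diag i
      · simp only [if_neg (Ne.symm hkj), if_true]
        exact hab
      · intro p q hp hq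
        simp only [if_neg hp, if_neg hq]
    | some s =>
      cases b with
      | none =>
        refine ⟨fun p q => M (if p = k then j else p) (if q = k then j else q),
          basic_comp hMb _, ?_, ?_, ?_⟩
        · simp only [if_neg (Ne.symm hki), if_true]
          exact hab
        · simp only [if_neg (Ne.symm hkj), if_true]
          exact hMb.diag j
        · intro p q hp hq
          simp only [if_neg hp, if_neg hq]
      | some t =>
        obtain ⟨V, _, c, φ, hcard, hc, hT, hsurj, hφ⟩ := exists_classes hMb k
        have hV : Fintype.card V ≤ 10 := by omega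
        set I : {p : Fin n // p ≠ k} := ⟨i, Ne.symm hki⟩ with hI
        set J : {p : Fin n // p ≠ k} := ⟨j, Ne.symm hkj⟩ with hJ
        have hMij : M i j = atomOf c (φ I) (φ J) := hφ I J
        have hg : ∃ g : V → ZMod 6, g (φ I) = s ∧ g (φ J) = t ∧
            ∀ p q, p ≠ q → ¬ Forbidden (c p q) (g p) (g q) := by
          by_cases hIJ : φ I = φ J
          · obtain ⟨g, h1, h2⟩ := extend_one hV hc (φ I) s
            refine ⟨g, h1, ?_, h2⟩
            rw [← hIJ, h1]
            rw [hMij, hIJ, atomOf_self'] at hab
            rcases hab with ⟨u, hu, _⟩ | ⟨_, hh⟩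
            · exact absurd hu (by simp)
            · exact hh
          · refine extend hV hc hIJ ?_
            rw [hMij, atomOf_ne' c hIJ] at hab
            rcases hab with ⟨u, hu, hf⟩ | ⟨hh, _⟩
            · rw [Option.some.inj hu]
              intro hforb
              exact hf (forb_swap23 _ _ _ (forb_swap12 _ _ _ (forb_swap23 _ _ _
                (forb_swap12 _ _ _ (forb_swap23 _ _ _ (forb_swap12 _ _ _ (
                  forb_swap23 _ _ _ (forb_swap12 _ _ _ hforb))))))))
            · exact absurd hh (by simp)
        obtain ⟨g, g1, g2, g3⟩ := hg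
        -- the colouring with the new point
        let c' : Option V → Option V → ZMod 6 := fun x y =>
          match x, y with
          | none, none => 0
          | none, some y => g y
          | some x, none => g x
          | some x, some y => c x y
        have hc' : ∀ x y, c' x y = c' y x := by
          rintro (_ | x) (_ | y)
          · rfl
          · rfl
          · rfl
          · exact hc x y
        have hT' : ∀ x y z, x ≠ y → y ≠ z → x ≠ z → ¬ Forbidden (c' x y) (c' y z) (c' x z) := by
          rintro (_ | x) (_ | y) (_ | z) h1 h2 h3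
          · exact absurd rfl h1
          · exact absurd rfl h1
          · exact absurd rfl h3
          · -- none, some y, some z
            intro hforb
            exact g3 y z (fun hh => h2 (by rw [hh])) (forb_swap12 _ _ _ hforb)
          · exact absurd rfl h2
          · -- some x, none, some z
            intro hforb
            exact g3 x z (fun hh => h3 (by rw [hh])) (forb_swap12 _ _ _ (forb_swap23 _ _ _ hforb))
          · -- some x, some y, none
            intro hforb
            exact g3 x y (fun hh => h1 (by rw [hh])) (forb_swap23 _ _ _ hforb)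
          · exact hT x y z (fun hh => h1 (by rw [hh])) (fun hh => h2 (by rw [hh]))
              (fun hh => h3 (by rw [hh]))
        let ψ : Fin n → Option V := fun p => if h : p ≠ k then some (φ ⟨p, h⟩) else none
        have ψk : ψ k = none := by simp [ψ]
        have ψp : ∀ p (h : p ≠ k), ψ p = some (φ ⟨p, h⟩) := by
          intro p h; simp [ψ, h]
        refine ⟨fun p q => atomOf c' (ψ p) (ψ q), basic_pull hc' hT' ψ, ?_, ?_, ?_⟩
        · show atomOf c' (ψ i) (ψ k) = some s
          rw [ψk, ψp i (Ne.symm hki), atomOf_ne' c' (by simp)]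
          exact congrArg some g1
        · show atomOf c' (ψ k) (ψ j) = some t
          rw [ψk, ψp j (Ne.symm hkj), atomOf_ne' c' (by simp)]
          exact congrArg some g2
        · intro p q hp hq
          show atomOf c' (ψ p) (ψ q) = M p q
          rw [ψp p hp, ψp q hq]
          have := hφ ⟨p, hp⟩ ⟨q, hq⟩
          rw [show M p q = atomOf c (φ ⟨p, hp⟩) (φ ⟨q, hq⟩) from this]
          by_cases h : φ ⟨p, hp⟩ = φ ⟨q, hq⟩
          · rw [h, atomOf_self', atomOf_self']
          · rw [atomOf_ne' c h, atomOf_ne' c' (fun hh => h (Option.some.inj hh))]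

end Pool.Agent.H59R
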