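import Mathlib
import Pool.Agent.RA6.Defs99

/-!
A lower bound for the size of a representation of A_6([i,i,i+2]).
-/

namespace Pool.Agent.H59R

open Pool.Agent.RA6 Finset

theorem forb_rot : ∀ s t u : ZMod 6, Forbidden s t u → Forbidden t u s := by decide

/-- A representation gives a colouring. -/
theorem colouring_of_rep {U : Type} {r : Set Atom → Set (U × U)} (h : IsRepresentation U r) :
    ∃ c : U → U → ZMod 6, IsColouring c := by
  classical
  have hempty : r ∅ = ∅ := by
    have := h.map_compl Set.univ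
    rw [Set.compl_univ, h.map_univ, Set.compl_univ] at this
    exact this
  have hmono : ∀ A B : Set Atom, A ⊆ B → r A ⊆ r B := by
    intro A B hAB
    have := h.map_union A B
    rw [Set.union_eq_self_of_subset_left hAB] at this
    rw [this]
    exact Set.subset_union_left
  have hex : ∀ p : U × U, ∃ a : Atom, p ∈ r {a} := by
    intro p
    by_contra hcon
    push Not at hcon
    have hfin : ∀ A : Set Atom, p ∉ r A := by
      intro A
      have hA : A.Finite := Set.toFinite A
      induction A, hA using Set.Finite.induction_on with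
      | empty => rw [hempty]; exact Set.notMem_empty p
      | @insert a s _ _ ih =>
        rw [Set.insert_eq, h.map_union]
        rintro (h1 | h1)
        · exact hcon a h1
        · exact ih h1
    exact hfin Set.univ (by rw [h.map_univ]; exact Set.mem_univ p)
  choose at' hat using hex
  have hmem : ∀ p : U × U, ∀ A : Set Atom, p ∈ r A ↔ at' p ∈ A := by
    intro p A
    constructor
    · intro hp
      by_contra hn
      have h1 : p ∈ r Aᶜ := hmono {at' p} Aᶜ (by
        intro a ha
        have : a = at' p := ha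
        rw [this]; exact hn) (hat p)
      rw [h.map_compl] at h1
      exact h1 hp
    · intro hp
      exact hmono {at' p} A (by
        intro a ha
        have : a = at' p := ha
        rw [this]; exact hp) (hat p)
  have hdiag : ∀ x y : U, at' (x, y) = none ↔ x = y := by
    intro x y
    have h1 := hmem (x, y) {none}
    rw [h.map_one] at h1
    constructor
    · intro h2
      have : (x, y) ∈ {p : U × U | p.1 = p.2} := h1.mpr h2
      exact this
    · intro h2
      have : (x, y) ∈ {p : U × U | p.1 = p.2} := h2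
      exact h1.mp this
  have hsome : ∀ x y : U, x ≠ y → at' (x, y) = some ((at' (x, y)).getD 0) := by
    intro x y hxy
    have h1 : at' (x, y) ≠ none := fun h2 => hxy ((hdiag x y).mp h2)
    obtain ⟨s, hs⟩ := Option.ne_none_iff_exists'.mp h1
    rw [hs]; rfl
  refine ⟨fun x y => (at' (x, y)).getD 0, ?_, ?_, ?_, ?_⟩
  · have h1 : r {some 0} ≠ r ∅ := by
      intro h2
      have := h.injective h2
      exact Set.singleton_ne_empty _ this
    rw [hempty] at h1
    obtain ⟨p, hp⟩ := Set.nonempty_iff_ne_empty.mpr h1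
    obtain ⟨x, y⟩ := p
    refine ⟨x, y, ?_⟩
    intro hxy
    have h2 := (hmem (x, y) {some 0}).mp hp
    have h3 : at' (x, y) = none := (hdiag x y).mpr hxy
    rw [h3] at h2
    exact absurd h2 (by simp)
  · intro x y _
    have h1 : (x, y) ∈ r {at' (x, y)} := hat _
    rw [h.map_conv] at h1
    have h2 : (y, x) ∈ r {at' (x, y)} := h1
    have h3 := (hmem (y, x) _).mp h2
    have h4 : at' (y, x) = at' (x, y) := h3
    show (at' (x, y)).getD 0 = (at' (y, x)).getD 0
    rw [h4]
  · intro x y z hxy hyz hxz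
    have h1 : (x, z) ∈ relComp (r {at' (x, y)}) (r {at' (y, z)}) :=
      ⟨y, hat _, hat _⟩
    rw [← h.map_comp] at h1
    have h2 := (hmem _ _).mp h1
    obtain ⟨a, ha, b, hb, hab⟩ := h2
    have ha' : a = at' (x, y) := ha
    have hb' : b = at' (y, z) := hb
    subst ha'; subst hb'
    rw [hsome x y hxy, hsome y z hyz, hsome x z hxz] at hab
    rcases hab with ⟨u, hu, hf⟩ | ⟨hn, _⟩
    · have : (at' (x, z)).getD 0 = u := by simpa using hu
      rw [← this] at hf
      exact hf
    · exact absurd hn (by simp)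
  · intro x y hxy s t hf
    have h1 : (x, y) ∈ r (algComp {some s} {some t}) := by
      rw [hmem, hsome x y hxy]
      exact ⟨some s, rfl, some t, rfl, Or.inl ⟨_, rfl, fun hc => hf (by
        exact forb_rot _ _ _ (forb_rot _ _ _ hc))⟩⟩
    rw [h.map_comp] at h1
    obtain ⟨w, hw1, hw2⟩ := h1
    have e1 : at' (x, w) = some s := (hmem _ _).mp hw1
    have e2 : at' (w, y) = some t := (hmem _ _).mp hw2
    refine ⟨w, ?_, ?_, ?_, ?_⟩
    · intro hwx
      have := (hdiag x w).mpr hwx.symm
      rw [this] at e1; exact absurd e1 (by simp)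
    · intro hwy
      have := (hdiag w y).mpr hwy
      rw [this] at e2; exact absurd e2 (by simp)
    · show (at' (x, w)).getD 0 = s
      rw [e1]; rfl
    · show (at' (w, y)).getD 0 = t
      rw [e2]; rfl

theorem card_four : ∀ i v : ZMod 6, v ≠ i + 2 →
    (univ.filter (fun s : ZMod 6 => s ≠ i ∧ v ≠ s + 2)).card = 4 := by decide

theorem forb_ss : ∀ v s : ZMod 6, v ≠ s + 2 → ¬ Forbidden v s s := by decide

theorem forb_in : ∀ i v : ZMod 6, ¬ Forbidden i v i → v ≠ i + 2 := by decide

theorem card_allowed : ∀ i j : ZMod 6,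
    (univ.filter (fun s : ZMod 6 => ¬ Forbidden j i s)).card
      = if j = i ∨ j = i + 2 ∨ j = i + 4 then 5 else 6 := by decide

/-- The elementary estimate. -/
theorem zmod_succ_ne : ∀ i : ZMod 6, ¬ (i + 1 = i ∨ i + 1 = i + 2 ∨ i + 1 = i + 4) := by
  decide

theorem zmod_self_ne : ∀ i : ZMod 6, ¬ (i = i + 2 ∨ i = i + 4) := by decide

theorem conv_bound (A : Finset (ZMod 6)) (f : ZMod 6 → ℕ) (i : ZMod 6) (D : ℕ)
    (h1 : ∀ s ∈ A, 1 ≤ f s) (h0 : ∀ s, s ∉ A → f s = 0) (hD : ∑ s, f s = D) :
    A.card ≤ D ∧ ∑ s ∈ univ.erase i, (f s * f s - f s) ≤ (D - A.card) * (D - A.card + 1) := by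
  classical
  have hsumA : ∑ s ∈ A, f s = D := by
    rw [← hD]
    exact Finset.sum_subset (Finset.subset_univ A) (fun s _ hs => h0 s hs)
  have hE : ∑ s ∈ A, (f s - 1) + A.card = D := by
    rw [← hsumA, Finset.card_eq_sum_ones, ← Finset.sum_add_distrib]
    refine Finset.sum_congr rfl (fun s hs => ?_)
    have := h1 s hs
    omega
  have hcard : A.card ≤ D := by omega
  refine ⟨hcard, ?_⟩
  set E := D - A.card with hEdef
  have hEs : ∑ s ∈ A, (f s - 1) = E := by omega
  have hle : ∀ s ∈ A, f s - 1 ≤ E := by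
    intro s hs
    rw [← hEs]
    exact Finset.single_le_sum (f := fun s => f s - 1) (fun _ _ => Nat.zero_le _) hs
  calc ∑ s ∈ univ.erase i, (f s * f s - f s)
      ≤ ∑ s, (f s * f s - f s) :=
        Finset.sum_le_sum_of_subset (Finset.subset_univ _)
    _ = ∑ s ∈ A, (f s * f s - f s) := by
        symm
        refine Finset.sum_subset (Finset.subset_univ A) (fun s _ hs => ?_)
        simp [h0 s hs]
    _ ≤ ∑ s ∈ A, (f s - 1) * (E + 1) := by
        refine Finset.sum_le_sum (fun s hs => ?_)
        have a1 := h1 s hs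
        have a2 := hle s hs
        obtain ⟨e, he⟩ : ∃ e, f s = e + 1 := ⟨f s - 1, by omega⟩
        rw [he] at a2 ⊢
        have : (e + 1) * (e + 1) - (e + 1) = e * (e + 1) := by
          have : (e + 1) * (e + 1) = e * (e + 1) + (e + 1) := by ring
          omega
        rw [this]
        have e2 : e + 1 - 1 = e := by omega
        rw [e2] at a2 ⊢
        exact Nat.mul_le_mul_left e (by omega)
    _ = E * (E + 1) := by rw [← Finset.sum_mul, hEs]

theorem sum6 (F : ZMod 6 → ℕ) : ∑ j, F j = F 0 + F 1 + F 2 + F 3 + F 4 + F 5 :=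
  Fin.sum_univ_six F

theorem arith1 (a D T : ℕ) (hDT : D ≤ T) (ha : 6 ≤ a)
    (h : 4 * (a * a - a) ≤ (T - D) * ((a - 6) * (a - 6 + 1)) + D * ((a - 5) * (a - 5 + 1))) :
    (a = 6 ∧ 60 ≤ D) ∨ (a = 7 ∧ 168 ≤ 2 * T + 4 * D) ∨ 8 ≤ a := by
  rcases Nat.lt_or_ge a 8 with h8 | h8
  · interval_cases a
    · left
      refine ⟨rfl, ?_⟩
      norm_num at h
      omega
    · right; left
      refine ⟨rfl, ?_⟩
      norm_num at h
      omega
  · right; right; exact h8

open Classical in
theorem card_ge {U : Type} [Fintype U] {c : U → U → ZMod 6} (h : IsColouring c) :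
    49 ≤ Fintype.card U := by
  obtain ⟨x, q, hxq⟩ := h.nontriv
  -- every colour at x
  have hdeg : ∀ s, ∃ w, w ≠ x ∧ c x w = s := by
    intro s
    obtain ⟨t, ht⟩ := exists_third (c x q) s
    obtain ⟨w, hw, _, h1, _⟩ := h.witness x q hxq s t ht
    exact ⟨w, hw, h1⟩
  set S : ZMod 6 → Finset U := fun i => univ.filter (fun z => z ≠ x ∧ c x z = i) with hS
  have memS : ∀ i z, z ∈ S i ↔ z ≠ x ∧ c x z = i := by
    intro i z; simp [hS]
  set d : ZMod 6 → ℕ := fun i => (S i).card with hd
  -- total count
  have htot : Fintype.card U = (∑ j, d j) + 1 := by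
    have h1 : (univ.erase x).card = ∑ j, d j := by
      rw [Finset.card_eq_sum_card_fiberwise (f := fun z => c x z) (t := univ)
        (fun _ _ => Finset.mem_coe.mpr (Finset.mem_univ _))]
      refine Finset.sum_congr rfl (fun j _ => ?_)
      show _ = (S j).card
      congr 1
      ext z
      simp [hS]
    have h2 : (univ.erase x).card = Fintype.card U - 1 := by
      rw [Finset.card_erase_of_mem (Finset.mem_univ x), Finset.card_univ]
    have h3 : 0 < Fintype.card U := Fintype.card_pos_iff.mpr ⟨x⟩
    omega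
  -- rows
  set N : ZMod 6 → U → ZMod 6 → Finset U :=
    fun i y s => (S i).filter (fun z => z ≠ y ∧ c z y = s) with hN
  have memN : ∀ i y s z, z ∈ N i y s ↔ z ∈ S i ∧ z ≠ y ∧ c z y = s := by
    intro i y s z; simp [hN]
  -- bound for one row
  have hrow : ∀ i y, y ≠ x →
      (if c x y = i ∨ c x y = i + 2 ∨ c x y = i + 4 then 5 else 6)
        ≤ (if c x y = i then d i - 1 else d i) ∧
      ∑ s ∈ univ.erase i, ((N i y s).card * (N i y s).card - (N i y s).card)
        ≤ ((if c x y = i then d i - 1 else d i)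
            - (if c x y = i ∨ c x y = i + 2 ∨ c x y = i + 4 then 5 else 6)) *
          ((if c x y = i then d i - 1 else d i)
            - (if c x y = i ∨ c x y = i + 2 ∨ c x y = i + 4 then 5 else 6) + 1) := by
    intro i y hy
    rw [← card_allowed i (c x y)]
    refine conv_bound _ (fun s => (N i y s).card) i _ ?_ ?_ ?_
    · intro s hs
      have hs' : ¬ Forbidden (c x y) i s := (Finset.mem_filter.mp hs).2
      obtain ⟨w, hwx, hwy, h1, h2⟩ := h.witness x y (Ne.symm hy) i s hs'
      exact Finset.card_pos.mpr ⟨w, (memN i y s w).mpr ⟨(memS i w).mpr ⟨hwx, h1⟩, hwy, h2⟩⟩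
    · intro s hs
      have hs' : Forbidden (c x y) i s := by
        by_contra hcon
        exact hs (Finset.mem_filter.mpr ⟨Finset.mem_univ _, hcon⟩)
      refine Finset.card_eq_zero.mpr (Finset.eq_empty_of_forall_notMem (fun z hz => ?_))
      obtain ⟨hz1, hz2, hz3⟩ := (memN i y s z).mp hz
      obtain ⟨hz4, hz5⟩ := (memS i z).mp hz1
      have := h.no_forb x z y (Ne.symm hz4) hz2 (Ne.symm hy)
      rw [hz5, hz3] at this
      exact this (forb_rot _ _ _ hs')
    · have h1 : ((S i).erase y).card = ∑ s, (N i y s).card := by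
        rw [Finset.card_eq_sum_card_fiberwise (f := fun z => c z y) (t := univ)
          (fun _ _ => Finset.mem_coe.mpr (Finset.mem_univ _))]
        refine Finset.sum_congr rfl (fun s _ => ?_)
        congr 1
        ext z
        simp only [Finset.mem_filter, Finset.mem_erase, hN]
        tauto
      rw [← h1]
      by_cases hc : c x y = i
      · rw [if_pos hc, Finset.card_erase_of_mem ((memS i y).mpr ⟨hy, hc⟩)]
      · rw [if_neg hc, Finset.erase_eq_of_notMem (fun hm => hc ((memS i y).mp hm).2)]
  -- d i at least 6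
  have hd6 : ∀ i, 6 ≤ d i := by
    intro i
    obtain ⟨y, hy, hyi⟩ := hdeg (i + 1)
    have h1 := (hrow i y hy).1
    rw [hyi] at h1
    have e1 : ¬ (i + 1 = i ∨ i + 1 = i + 2 ∨ i + 1 = i + 4) := zmod_succ_ne i
    have e2 : ¬ (i + 1 = i) := fun hh => e1 (Or.inl hh)
    rw [if_neg e1, if_neg e2] at h1
    exact h1
  -- double count
  have hpairs : ∀ i, 4 * (d i * d i - d i) ≤
      ∑ y ∈ univ.erase x, ∑ s ∈ univ.erase i,
        ((N i y s).card * (N i y s).card - (N i y s).card) := by
    intro i
    have hQ : ((S i).offDiag.sigma (fun p =>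
        univ.filter (fun s : ZMod 6 => s ≠ i ∧ c p.1 p.2 ≠ s + 2))).card
        = 4 * (d i * d i - d i) := by
      rw [Finset.card_sigma]
      have : ∀ p ∈ (S i).offDiag,
          (univ.filter (fun s : ZMod 6 => s ≠ i ∧ c p.1 p.2 ≠ s + 2)).card = 4 := by
        intro p hp
        obtain ⟨h1, h2, h3⟩ := Finset.mem_offDiag.mp hp
        obtain ⟨h4, h5⟩ := (memS i _).mp h1
        obtain ⟨h6, h7⟩ := (memS i _).mp h2
        refine card_four i _ (forb_in i _ ?_)
        have := h.no_forb x p.1 p.2 (Ne.symm h4) h3 (Ne.symm h6)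
        rw [h5, h7] at this
        exact this
      rw [Finset.sum_congr rfl this, Finset.sum_const, Finset.offDiag_card, smul_eq_mul]
      exact Nat.mul_comm _ _
    rw [← hQ]
    have hsub : ((S i).offDiag.sigma (fun p =>
        univ.filter (fun s : ZMod 6 => s ≠ i ∧ c p.1 p.2 ≠ s + 2)))
        ⊆ (univ.erase x).biUnion (fun y => (univ.erase i).biUnion (fun s =>
            ((N i y s).offDiag).image (fun p => (⟨p, s⟩ : Σ _ : U × U, ZMod 6)))) := by
      rintro ⟨p, s⟩ hps
      obtain ⟨hp, hs⟩ := Finset.mem_sigma.mp hps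
      obtain ⟨_, hs1, hs2⟩ := Finset.mem_filter.mp hs
      obtain ⟨h1, h2, h3⟩ := Finset.mem_offDiag.mp hp
      obtain ⟨h4, h5⟩ := (memS i _).mp h1
      obtain ⟨h6, h7⟩ := (memS i _).mp h2
      obtain ⟨y, hy1, hy2, hy3, hy4⟩ := h.witness p.1 p.2 h3 s s (forb_ss _ _ hs2)
      have hyx : y ≠ x := by
        intro hyx
        rw [hyx] at hy3
        rw [h.symm p.1 x h4, h5] at hy3
        exact hs1 hy3.symm
      refine Finset.mem_biUnion.mpr ⟨y, Finset.mem_erase.mpr ⟨hyx, Finset.mem_univ _⟩, ?_⟩
      refine Finset.mem_biUnion.mpr ⟨s, Finset.mem_erase.mpr ⟨hs1, Finset.mem_univ _⟩, ?_⟩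
      refine Finset.mem_image.mpr ⟨p, Finset.mem_offDiag.mpr ⟨?_, ?_, h3⟩, rfl⟩
      · exact (memN i y s _).mpr ⟨h1, Ne.symm hy1, hy3⟩
      · refine (memN i y s _).mpr ⟨h2, Ne.symm hy2, ?_⟩
        rw [h.symm p.2 y (Ne.symm hy2)]
        exact hy4
    refine (Finset.card_le_card hsub).trans ?_
    refine (Finset.card_biUnion_le).trans ?_
    refine Finset.sum_le_sum (fun y _ => ?_)
    refine (Finset.card_biUnion_le).trans ?_
    refine Finset.sum_le_sum (fun s _ => ?_)
    refine (Finset.card_image_le).trans ?_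
    rw [Finset.offDiag_card]
  -- put together
  have hmain : ∀ i, 4 * (d i * d i - d i) ≤ ∑ j, d j *
      (if j = i + 2 ∨ j = i + 4 then (d i - 5) * (d i - 5 + 1)
        else (d i - 6) * (d i - 6 + 1)) := by
    intro i
    refine (hpairs i).trans ?_
    have h1 : ∑ y ∈ univ.erase x, ∑ s ∈ univ.erase i,
        ((N i y s).card * (N i y s).card - (N i y s).card)
        ≤ ∑ y ∈ univ.erase x, (if c x y = i + 2 ∨ c x y = i + 4
          then (d i - 5) * (d i - 5 + 1) else (d i - 6) * (d i - 6 + 1)) := by
      refine Finset.sum_le_sum (fun y hy => ?_)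
      have hy' := (Finset.mem_erase.mp hy).1
      refine (hrow i y hy').2.trans ?_
      by_cases hc : c x y = i
      · have e1 : ¬ (i = i + 2 ∨ i = i + 4) := zmod_self_ne i
        rw [hc]
        rw [if_pos rfl, if_pos (Or.inl rfl), if_neg e1]
        have : d i - 1 - 5 = d i - 6 := by omega
        rw [this]
      · rw [if_neg hc]
        by_cases hc2 : c x y = i + 2 ∨ c x y = i + 4
        · rw [if_pos hc2, if_pos (Or.inr hc2)]
        · rw [if_neg hc2, if_neg (fun hh => hh.elim hc hc2)]
    refine h1.trans (le_of_eq ?_)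
    rw [← Finset.sum_fiberwise_of_maps_to (g := fun y => c x y) (t := univ)
      (fun _ _ => Finset.mem_univ _)]
    refine Finset.sum_congr rfl (fun j _ => ?_)
    have e2 : ∀ y ∈ (univ.erase x).filter (fun y => c x y = j),
        (if c x y = i + 2 ∨ c x y = i + 4 then (d i - 5) * (d i - 5 + 1)
          else (d i - 6) * (d i - 6 + 1))
        = (if j = i + 2 ∨ j = i + 4 then (d i - 5) * (d i - 5 + 1)
          else (d i - 6) * (d i - 6 + 1)) := by
      intro y hy
      rw [(Finset.mem_filter.mp hy).2]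
    rw [Finset.sum_congr rfl e2, Finset.sum_const, smul_eq_mul]
    congr 1
    show _ = (S j).card
    congr 1
    ext z
    simp [hS]
  rw [htot]
  rw [sum6]
  have H : ∀ i, 6 ≤ d i := hd6
  have k0 := hmain 0
  have k1 := hmain 1
  have k2 := hmain 2
  have k3 := hmain 3
  have k4 := hmain 4
  have k5 := hmain 5
  rw [sum6] at k0 k1 k2 k3 k4 k5
  set T := d 0 + d 1 + d 2 + d 3 + d 4 + d 5 with hT
  have r0 := arith1 (d 0) (d 2 + d 4) T (by omega) (H 0) (by
    refine k0.trans (le_of_eq ?_)
    rw [if_neg (by decide), if_neg (by decide), if_pos (by decide), if_neg (by decide),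
      if_pos (by decide), if_neg (by decide)]
    have : T - (d 2 + d 4) = d 0 + d 1 + d 3 + d 5 := by omega
    rw [this]; ring)
  have r1 := arith1 (d 1) (d 3 + d 5) T (by omega) (H 1) (by
    refine k1.trans (le_of_eq ?_)
    rw [if_neg (by decide), if_neg (by decide), if_neg (by decide), if_pos (by decide),
      if_neg (by decide), if_pos (by decide)]
    have : T - (d 3 + d 5) = d 0 + d 1 + d 2 + d 4 := by omega
    rw [this]; ring)
  have r2 := arith1 (d 2) (d 0 + d 4) T (by omega) (H 2) (by
    refine k2.trans (le_of_eq ?_)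
    rw [if_pos (by decide), if_neg (by decide), if_neg (by decide), if_neg (by decide),
      if_pos (by decide), if_neg (by decide)]
    have : T - (d 0 + d 4) = d 1 + d 2 + d 3 + d 5 := by omega
    rw [this]; ring)
  have r3 := arith1 (d 3) (d 1 + d 5) T (by omega) (H 3) (by
    refine k3.trans (le_of_eq ?_)
    rw [if_neg (by decide), if_pos (by decide), if_neg (by decide), if_neg (by decide),
      if_neg (by decide), if_pos (by decide)]
    have : T - (d 1 + d 5) = d 0 + d 2 + d 3 + d 4 := by omega
    rw [this]; ring)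
  have r4 := arith1 (d 4) (d 0 + d 2) T (by omega) (H 4) (by
    refine k4.trans (le_of_eq ?_)
    rw [if_pos (by decide), if_neg (by decide), if_pos (by decide), if_neg (by decide),
      if_neg (by decide), if_neg (by decide)]
    have : T - (d 0 + d 2) = d 1 + d 3 + d 4 + d 5 := by omega
    rw [this]; ring)
  have r5 := arith1 (d 5) (d 1 + d 3) T (by omega) (H 5) (by
    refine k5.trans (le_of_eq ?_)
    rw [if_neg (by decide), if_pos (by decide), if_neg (by decide), if_pos (by decide),
      if_neg (by decide), if_neg (by decide)]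
    have : T - (d 1 + d 3) = d 0 + d 2 + d 4 + d 5 := by omega
    rw [this]; ring)
  omega

end Pool.Agent.H59R
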